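import Pool.Agent.W_MP_d15038_fx.Word
import Pool.Agent.W_MP_d15038_ex.Sound

/-!
# From the packed numbers to the coefficients
-/

set_option autoImplicit false

open Polynomial

namespace Pool.Agent.W_MP_d15038_ex

/-! ### the bitwise comparison -/

def maskR (w : ℕ) : ℕ → ℕ
  | 0 => 0
  | n + 1 => 2 ^ w * maskR w n + 2 ^ (w - 1)

theorem maskR_eq (w n : ℕ) : maskR w n = 2 ^ (w - 1) * ∑ i ∈ Finset.range n, (2 ^ w) ^ i := by
  induction n with
  | zero => simp [maskR]
  | succ n ih =>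
    rw [maskR, ih, Finset.sum_range_succ', mul_add, Finset.mul_sum, Finset.mul_sum, Finset.mul_sum]
    simp only [pow_zero, mul_one, add_left_inj]
    refine Finset.sum_congr rfl fun i _ => ?_
    ring

theorem mask_eq {w : ℕ} (hw : 0 < w) (n : ℕ) : mask w n = maskR w n := by
  rw [maskR_eq]
  change 2 ^ (w - 1) * ((2 ^ (w * n) - 1) / (2 ^ w - 1)) = _
  have h1 : 2 ≤ 2 ^ w := by
    calc 2 = 2 ^ 1 := rfl
      _ ≤ 2 ^ w := Nat.pow_le_pow_right (by norm_num) hw
  rw [Nat.geomSum_eq h1, pow_mul]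

theorem land_mask {w : ℕ} (hw : 0 < w) : ∀ (n C : ℕ), C < 2 ^ (w * n) → Nat.land C (maskR w n) = 0 →
    ∃ c : ℕ[X], c.eval (2 ^ w) = C ∧ ∀ i, c.coeff i < 2 ^ (w - 1) := by
  intro n
  induction n with
  | zero =>
    intro C hC _
    rw [mul_zero, pow_zero, Nat.lt_one_iff] at hC
    exact ⟨0, by rw [hC]; simp, fun i => by rw [coeff_zero]; exact pow_pos (by norm_num) _⟩
  | succ n ih =>
    intro C hC h
    have hww : 2 ^ w = 2 ^ (w - 1) * 2 := by rw [← pow_succ]; congr 1; omega
    have hpos : 0 < 2 ^ (w - 1) := pow_pos (by norm_num) _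
    have hM1 : maskR w (n + 1) / 2 ^ w = maskR w n := by
      rw [maskR, Nat.mul_add_div (by positivity), Nat.div_eq_of_lt (by omega), add_zero]
    have hM2 : maskR w (n + 1) % 2 ^ w = 2 ^ (w - 1) := by
      rw [maskR, Nat.mul_add_mod, Nat.mod_eq_of_lt (by omega)]
    have hbit : ∀ i, (C.testBit i && (maskR w (n + 1)).testBit i) = false := by
      intro i
      have : (Nat.land C (maskR w (n + 1))).testBit i = false := by rw [h]; simp
      rwa [show Nat.land C (maskR w (n + 1)) = C &&& maskR w (n + 1) from rfl, Nat.testBit_and] at this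
    have h1 : Nat.land (C / 2 ^ w) (maskR w n) = 0 := by
      rw [show Nat.land (C / 2 ^ w) (maskR w n) = (C / 2 ^ w) &&& maskR w n from rfl]
      refine Nat.eq_of_testBit_eq fun i => ?_
      rw [Nat.testBit_and, Nat.zero_testBit, ← hM1, Nat.testBit_div_two_pow, Nat.testBit_div_two_pow]
      exact hbit _
    have h2 : C / 2 ^ w < 2 ^ (w * n) := by
      rw [Nat.div_lt_iff_lt_mul (by positivity), ← pow_add]
      exact hC
    obtain ⟨c, hc1, hc2⟩ := ih _ h2 h1
    have h3 : C % 2 ^ w < 2 ^ (w - 1) := by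
      by_contra hcon
      rw [not_lt] at hcon
      have h4 : C % 2 ^ w < 2 ^ w := Nat.mod_lt _ (by positivity)
      have h5 : (C % 2 ^ w) / 2 ^ (w - 1) = 1 := by
        rw [Nat.div_eq_iff hpos]
        omega
      have h6 : (C % 2 ^ w).testBit (w - 1) = true := by
        rw [Nat.testBit_eq_decide_div_mod_eq, h5]
        rfl
      rw [Nat.testBit_mod_two_pow] at h6
      have h7 : (maskR w (n + 1) % 2 ^ w).testBit (w - 1) = true := by
        rw [hM2]
        exact Nat.testBit_two_pow_self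
      rw [Nat.testBit_mod_two_pow] at h7
      have h8 := hbit (w - 1)
      rw [Bool.and_eq_true] at h6 h7
      rw [h6.2, h7.2] at h8
      exact absurd h8 (by simp)
    refine ⟨c * X + Polynomial.C (C % 2 ^ w), ?_, fun i => ?_⟩
    · rw [eval_add, eval_mul, eval_X, eval_C, hc1]
      exact Nat.div_add_mod' _ _
    · cases i with
      | zero =>
        simp only [coeff_add, mul_coeff_zero, coeff_X_zero, mul_zero, coeff_C_zero, zero_add]
        exact h3
      | succ i =>
        rw [coeff_add, coeff_mul_X, coeff_C_succ, add_zero]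
        exact hc2 i

theorem digOK_sound {w n A B : ℕ} (hw : 0 < w) (h : digOK w n A B = true) :
    ∃ c : ℕ[X], B + c.eval (2 ^ w) = A ∧ ∀ i, c.coeff i < 2 ^ (w - 1) := by
  unfold digOK at h
  obtain ⟨h1, h⟩ := cond_false_right h
  obtain ⟨h2, h3⟩ := cond_false_right h
  have h1 := Nat.le_of_ble_eq_true h1
  have h3 : A < 2 ^ (w * n) := Nat.le_of_ble_eq_true h3
  have h2 := Nat.eq_of_beq_eq_true h2
  rw [mask_eq hw] at h2
  obtain ⟨c, hc1, hc2⟩ := land_mask hw n (A - B) (lt_of_le_of_lt (Nat.sub_le _ _) h3) h2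
  exact ⟨c, by rw [hc1]; omega, hc2⟩

/-! ### polynomials -/

theorem coeff_mul_pow_le (P : ℕ[X]) (Q i : ℕ) : P.coeff i * Q ^ i ≤ P.eval Q := by
  rw [eval_eq_sum, sum_def]
  by_cases hi : i ∈ P.support
  · exact Finset.single_le_sum (f := fun i => P.coeff i * Q ^ i) (fun _ _ => Nat.zero_le _) hi
  · rw [notMem_support_iff.1 hi, zero_mul]
    exact Nat.zero_le _

noncomputable def packP (D : ℕ) : List (ℕ[X] × ℕ[X]) → ℕ[X] × ℕ[X]
  | [] => (0, 0)
  | p :: l => (p.1 + X ^ D * (packP D l).1, p.2 + X ^ D * (packP D l).2)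

theorem packP_eval (D x : ℕ) (l : List (ℕ[X] × ℕ[X])) :
    packN (x ^ D) (l.map (Prod.map (fun P => P.eval x) (fun P => P.eval x))) =
      ((packP D l).1.eval x, (packP D l).2.eval x) := by
  induction l with
  | nil => simp [packP, packN]
  | cons p l ih =>
    rw [List.map_cons, packN, ih, packP]
    simp

theorem packN_one_le (l : List (ℕ × ℕ)) : ∀ p ∈ l, p.1 ≤ (packN 1 l).1 ∧ p.2 ≤ (packN 1 l).2 := by
  induction l with
  | nil => simp
  | cons q l ih =>
    intro p hp
    rw [packN]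
    simp only [one_mul]
    rcases List.mem_cons.1 hp with rfl | hp
    · exact ⟨Nat.le_add_right _ _, Nat.le_add_right _ _⟩
    · obtain ⟨h1, h2⟩ := ih p hp
      omega

/-- the coefficients of the second polynomial are at most those of the first -/
def CoefLe (q : ℕ[X] × ℕ[X]) : Prop := ∀ i, q.2.coeff i ≤ q.1.coeff i

theorem packP_le {D : ℕ} : ∀ {l : List (ℕ[X] × ℕ[X])},
    (∀ p ∈ l, ∀ i, D ≤ i → p.1.coeff i = 0 ∧ p.2.coeff i = 0) →
    CoefLe (packP D l) → ∀ p ∈ l, CoefLe p := by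
  intro l
  induction l with
  | nil => simp
  | cons q l ih =>
    intro hdeg h p hp
    have hq := hdeg q List.mem_cons_self
    rcases List.mem_cons.1 hp with rfl | hp
    · intro i
      rcases lt_or_ge i D with hi | hi
      · have := h i
        rw [packP] at this
        simp only [coeff_add] at this
        rw [coeff_X_pow_mul', coeff_X_pow_mul', if_neg (by omega), if_neg (by omega)] at this
        simpa using this
      · rw [(hq i hi).2]
        exact Nat.zero_le _
    · refine ih (fun p hp => hdeg p (List.mem_cons_of_mem _ hp)) (fun i => ?_) p hp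
      have := h (i + D)
      rw [packP] at this
      simp only [coeff_add] at this
      rw [coeff_X_pow_mul, coeff_X_pow_mul, (hq (i + D) (by omega)).1, (hq (i + D) (by omega)).2,
        zero_add, zero_add] at this
      exact this

theorem compare {w n : ℕ} (hw : 0 < w) {P : ℕ[X] × ℕ[X]}
    (h1 : P.1.eval 1 + P.2.eval 1 < 2 ^ (w - 1))
    (h3 : digOK w n (P.1.eval (2 ^ w)) (P.2.eval (2 ^ w)) = true) : CoefLe P := by
  obtain ⟨c, hc1, hc2⟩ := digOK_sound hw h3
  have hww : 2 ^ w = 2 ^ (w - 1) * 2 := by rw [← pow_succ]; congr 1; omega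
  have b1 : ∀ i, P.1.coeff i < 2 ^ (w - 1) := fun i => by
    have := coeff_mul_pow_le P.1 1 i
    rw [one_pow, mul_one] at this
    omega
  have b2 : ∀ i, P.2.coeff i < 2 ^ (w - 1) := fun i => by
    have := coeff_mul_pow_le P.2 1 i
    rw [one_pow, mul_one] at this
    omega
  have h4 : P.2 + c = P.1 := by
    refine poly_unique (B := 2 ^ w) (by positivity) _ _ _ (le_max_left _ _) (le_max_right _ _)
      (fun i => ?_) (fun i => ?_) (by rw [eval_add]; exact hc1)
    · rw [coeff_add]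
      have := b2 i
      have := hc2 i
      omega
    · have := b1 i
      omega
  intro i
  rw [← h4, coeff_add]
  exact Nat.le_add_right _ _

theorem outs_rows {A : Type} (o : Ops A) (k : ℕ) (rows : List (List ℕ)) (cs : List Clu) :
    ∀ (gs : List (Grp A)) (q : A × A), q ∈ outs o k rows cs gs →
      ∃ row ∈ rows, q ∈ outs o k [row] cs gs := by
  induction cs with
  | nil =>
    intro gs q hq
    rw [outs_nil] at hq
    obtain ⟨row, hr, rfl⟩ := List.mem_map.1 hq
    exact ⟨row, hr, by rw [outs_nil]; simp⟩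
  | cons c cs ih =>
    intro gs q hq
    rw [outs_cons] at hq
    obtain ⟨j, hj, hq⟩ := List.mem_flatMap.1 hq
    obtain ⟨row, hr, hq⟩ := ih _ q hq
    exact ⟨row, hr, by rw [outs_cons]; exact List.mem_flatMap.2 ⟨j, hj, hq⟩⟩

theorem outs_head {A : Type} (o : Ops A) (k : ℕ) (row : List ℕ) (rows : List (List ℕ))
    (cs : List Clu) : ∀ (gs : List (Grp A)), ∃ q l l', outs o k (row :: rows) cs gs = q :: l ∧
      outs o k [row] cs gs = q :: l' := by
  induction cs with
  | nil =>
    intro gs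
    rw [outs_nil, outs_nil]
    exact ⟨_, _, _, rfl, rfl⟩
  | cons c cs ih =>
    intro gs
    rw [outs_cons, outs_cons, lrange_eq, List.range_succ_eq_map, List.flatMap_cons, List.flatMap_cons]
    obtain ⟨q, l, l', h1, h2⟩ := ih (gs.map fun g => (g.1, mulEntries o c 0 g.2))
    rw [h1, h2]
    exact ⟨_, _, _, rfl, rfl⟩

/-- what the certificates prove -/
def CertOK (T : Tab) (k r : ℕ) (NH NH' MH MH' : List (List ℕ)) : Prop :=
  ∃ G, GOK T.types NH NH' k G ∧
    (∀ p ∈ parts noN noN r, ∀ q ∈ outs opsPoly k T.rows (p.1.map (mkClu k MH MH'))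
      (mkGrp opsPoly T.types G), CoefLe q) ∧
    ∃ q l, outs opsPoly k T.rows ((discPat r).map (mkClu k MH MH')) (mkGrp opsPoly T.types G) = q :: l ∧
      q.1 ≠ q.2

theorem packN_single (w w' : ℕ) (p : ℕ × ℕ) : packN w [p] = packN w' [p] := by
  simp [packN]

theorem sumsW_eq {T : List (List ℕ)} {NH NH' : List (List ℕ)} {k : ℕ} (hk : k ≤ 10)
    {G : List (ℕ × List Part)} (hG : GOK T NH NH' k G) (hT : ∀ τ ∈ T, τ.length < 32)
    {cs : List Clu} (hs : smallE k cs = true) (y w : ℕ) (row : List ℕ) :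
    packN w (outs (opsNat y) k [row] cs (mkGrp (opsNat y) T G)) =
      (dotA row (sumsW T k G cs y w), dotB row (sumsW T k G cs y w)) := by
  cases cs with
  | nil =>
    change _ = (dotA row (sumsP T k G [] y 1), dotB row (sumsP T k G [] y 1))
    rw [← dot_sumsP hk hG hT hs y 1 row, outs_nil]
    exact packN_single _ _ _
  | cons c cs =>
    change _ = (dotA row (sumsP T k G (c :: cs) y w), dotB row (sumsP T k G (c :: cs) y w))
    exact dot_sumsP hk hG hT hs y w row

theorem pat_sound {T : Tab} {NH NH' : List (List ℕ)} {k : ℕ} (hk : k ≤ 10)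
    {G : List (ℕ × List Part)} (hG : GOK T.types NH NH' k G) (hT : ∀ τ ∈ T.types, τ.length < 32)
    {cs : List Clu} (hs : smallE k cs = true) {w D : ℕ} (hw : 0 < w)
    (h1 : bd1 T k G w cs = true) (h2 : bd2 T k G w D cs = true) (h3 : bd3 T k G w D cs = true) :
    ∀ q ∈ outs opsPoly k T.rows cs (mkGrp opsPoly T.types G), CoefLe q := by
  intro q hq
  obtain ⟨row, hrow, hq⟩ := outs_rows _ _ _ _ _ _ hq
  have g1 : dotA row (sumsP T.types k G cs 1 1) + dotB row (sumsP T.types k G cs 1 1) < 2 ^ (w - 1) :=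
    Nat.le_of_ble_eq_true (ball_sound h1 row hrow)
  have g2 : dotA row (sumsP T.types k G cs (2 ^ w) 1) + dotB row (sumsP T.types k G cs (2 ^ w) 1) <
      2 ^ (w * D) := Nat.le_of_ble_eq_true (ball_sound h2 row hrow)
  have g3 : digOK w (D * (k + 1) ^ (len cs)) (dotA row (sumsW T.types k G cs (2 ^ w) (2 ^ (w * D))))
      (dotB row (sumsW T.types k G cs (2 ^ w) (2 ^ (w * D)))) = true := ball_sound h3 row hrow
  have e1 := dot_sumsP hk hG hT hs 1 1 row
  have e2 := dot_sumsP hk hG hT hs (2 ^ w) 1 row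
  have e3 := sumsW_eq hk hG hT hs (2 ^ w) (2 ^ (w * D)) row
  rw [outs_nat_eq] at e1 e2 e3
  have e1' : packN (1 ^ D) ((outs opsPoly k [row] cs (mkGrp opsPoly T.types G)).map
      (Prod.map (fun P => P.eval 1) (fun P => P.eval 1))) = _ := packP_eval D 1 _
  have e3' := packP_eval D (2 ^ w) (outs opsPoly k [row] cs (mkGrp opsPoly T.types G))
  rw [one_pow, e1] at e1'
  rw [← pow_mul, e3] at e3'
  have a1 := congrArg Prod.fst e1'
  have a2 := congrArg Prod.snd e1'
  have a3 := congrArg Prod.fst e3'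
  have a4 := congrArg Prod.snd e3'
  simp only at a1 a2 a3 a4
  rw [a1, a2] at g1
  rw [a3, a4] at g3
  have h4 : CoefLe (packP D (outs opsPoly k [row] cs (mkGrp opsPoly T.types G))) := compare hw g1 g3
  refine packP_le (fun p hp i hi => ?_) h4 q hq
  have h5 := packN_one_le _ _ (List.mem_map_of_mem (f := Prod.map (fun P : ℕ[X] => P.eval (2 ^ w))
    (fun P : ℕ[X] => P.eval (2 ^ w))) hp)
  rw [e2] at h5
  simp only [Prod.map_fst, Prod.map_snd] at h5
  have h6 : ∀ P : ℕ[X], P.eval (2 ^ w) < 2 ^ (w * D) → P.coeff i = 0 := by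
    intro P hP
    by_contra hne
    have h7 := coeff_mul_pow_le P (2 ^ w) i
    have h8 : 2 ^ (w * D) ≤ (2 ^ w) ^ i := by
      rw [← pow_mul]
      exact Nat.pow_le_pow_right (by norm_num) (Nat.mul_le_mul_left _ hi)
    have h9 : (2 ^ w) ^ i ≤ P.coeff i * (2 ^ w) ^ i := Nat.le_mul_of_pos_left _ (Nat.pos_of_ne_zero hne)
    omega
  exact ⟨h6 _ (by omega), h6 _ (by omega)⟩

theorem strict_fast {T : Tab} {NH NH' : List (List ℕ)} {k : ℕ} (hk : k ≤ 10)
    {G : List (ℕ × List Part)} (hG : GOK T.types NH NH' k G) (hT : ∀ τ ∈ T.types, τ.length < 32)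
    {cs : List Clu} (hs : smallE k cs = true) {w D : ℕ}
    (h : fastStrict T k G w D cs = true) :
    ∃ q l, outs opsPoly k T.rows cs (mkGrp opsPoly T.types G) = q :: l ∧ q.1 ≠ q.2 := by
  unfold fastStrict at h
  rcases hr : T.rows with _ | ⟨row, R⟩
  · rw [hr] at h
    exact absurd h (by simp)
  · rw [hr] at h
    have h' : cond (Nat.beq ((dotA row (sumsW T.types k G cs (2 ^ w) (2 ^ (w * D)))) % 2 ^ (w * D))
        ((dotB row (sumsW T.types k G cs (2 ^ w) (2 ^ (w * D)))) % 2 ^ (w * D))) false true = true := h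
    obtain ⟨h1, _⟩ := cond_false_left h'
    obtain ⟨q, l, l', h2, h3⟩ := outs_head opsPoly k row R cs (mkGrp opsPoly T.types G)
    refine ⟨q, l, h2, fun heq => ?_⟩
    have e3 := sumsW_eq hk hG hT hs (2 ^ w) (2 ^ (w * D)) row
    rw [outs_nat_eq, h3, List.map_cons, packN] at e3
    have a3 := congrArg Prod.fst e3
    have a4 := congrArg Prod.snd e3
    simp only [Prod.map_fst, Prod.map_snd] at a3 a4
    rw [← a3, ← a4, heq, Nat.add_mul_mod_self_left, Nat.add_mul_mod_self_left, Nat.beq_refl] at h1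
    exact absurd h1 (by simp)

/-- soundness of the checks, given separately -/
theorem certOK_of {T : Tab} {k r : ℕ} {NH NH' MH MH' : List (List ℕ)} (hk0 : 0 < k) (hk : k ≤ 10)
    (hc : CloseOK T k) {w D : ℕ}
    (hl : fastLen T k NH NH' = true)
    (hst : smallE k (lmap (mkClu k MH MH') (discPat r)) = true ∧
      fastStrict T k (grpF T.types NH NH' k) w D (lmap (mkClu k MH MH') (discPat r)) = true)
    (hp : ∀ p ∈ parts noN noN r, ∃ w' D', 0 < w' ∧ smallE k (lmap (mkClu k MH MH') p.1) = true ∧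
      bd1 T k (grpF T.types NH NH' k) w' (lmap (mkClu k MH MH') p.1) = true ∧
      bd2 T k (grpF T.types NH NH' k) w' D' (lmap (mkClu k MH MH') p.1) = true ∧
      bd3 T k (grpF T.types NH NH' k) w' D' (lmap (mkClu k MH MH') p.1) = true) :
    CertOK T k r NH NH' MH MH' := by
  have hG := grpF_ok hk0 hk hl
  have hT : ∀ τ ∈ T.types, τ.length < 32 := fun τ hτ => by
    have := (hc.1 τ hτ).2
    omega
  refine ⟨_, hG, fun p hp' => ?_, ?_⟩
  · obtain ⟨w', D', hw, h0, h1, h2, h3⟩ := hp p hp'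
    rw [← lmap_eq]
    exact pat_sound hk hG hT h0 hw h1 h2 h3
  · rw [← lmap_eq]
    exact strict_fast hk hG hT hst.1 hst.2

theorem discPat_memF (r : ℕ) : ∃ p ∈ parts noN noN r, p.1 = discPat r := by
  induction r with
  | zero => exact ⟨([], 0, 0), by simp [parts], rfl⟩
  | succ r ih =>
    obtain ⟨p, hp, hp1⟩ := ih
    rw [parts_succ]
    refine ⟨_, List.mem_flatMap.2 ⟨p, hp, List.mem_append.2 (Or.inr (List.mem_singleton.2 rfl))⟩, ?_⟩
    rw [hp1]
    rfl

theorem fastPat_sound {T : Tab} {k : ℕ} {G : List (ℕ × List Part)} {w D : ℕ} {cs : List Clu}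
    (h : fastPat T k G w D cs = true) : smallE k cs = true ∧ bd1 T k G w cs = true ∧
      bd2 T k G w D cs = true ∧ bd3 T k G w D cs = true := by
  unfold fastPat at h
  obtain ⟨h1, h⟩ := cond_false_right h
  obtain ⟨h2, h⟩ := cond_false_right h
  obtain ⟨h3, h4⟩ := cond_false_right h
  exact ⟨h1, h2, h3, h4⟩

theorem certOK_of_all {T : Tab} {k r : ℕ} {NH NH' MH MH' : List (List ℕ)} (hk0 : 0 < k) (hk : k ≤ 10)
    (hc : CloseOK T k) {w D : ℕ} (hw : 0 < w)
    (h : fastAll T k r NH NH' MH MH' w D = true) : CertOK T k r NH NH' MH MH' := by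
  unfold fastAll at h
  obtain ⟨h1, h⟩ := cond_false_right h
  obtain ⟨h2, h3⟩ := cond_false_right h
  have h3 := ball_sound h3
  obtain ⟨p, hp, hp1⟩ := discPat_memF r
  have h4 := fastPat_sound (h3 p hp)
  rw [hp1] at h4
  exact certOK_of hk0 hk hc h1 ⟨h4.1, h2⟩ fun p hp => ⟨w, D, hw, fastPat_sound (h3 p hp)⟩

end Pool.Agent.W_MP_d15038_ex
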