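import Pool.Agent.W_MP_d15038_ex.Group

/-!
# Fast evaluation of the certificates

All the parameters of the marked clusters are treated at once: the clusters get variables which are
powers of a large number, and the coefficients are compared by one bitwise operation.
-/

set_option autoImplicit false

namespace Pool.Agent.W_MP_d15038_ex

/-! ### partitions grouped by type -/

/-- insert the hub `k` in the blocks of size `s` of `κ`; `ctx` is the context of the sublist,
`tl` the remaining output. -/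
def insF (s k : ℕ) (N N' : List ℕ) (e e' : ℕ) (κ : List (List ℕ)) :
    (List (List ℕ) → List (List ℕ)) → List Part → List Part :=
  List.rec (motive := fun _ => (List (List ℕ) → List (List ℕ)) → List Part → List Part)
    (fun _ tl => tl)
    (fun b rest ih ctx tl => cond (Nat.beq (len b) s)
      ((ctx ((k :: b) :: rest), Nat.add e (Nat.add s (cntOut b N)), Nat.add e' (Nat.add s (cntOut b N'))) ::
        ih (fun t => ctx (b :: t)) tl)
      (ih (fun t => ctx (b :: t)) tl)) κ

/-- all insertions in blocks of size `s` -/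
def insL (s k : ℕ) (N N' : List ℕ) (L : List Part) (tl : List Part) : List Part :=
  List.rec (motive := fun _ => List Part) tl
    (fun p _ ih => insF s k N N' p.2.1 p.2.2 p.1 (fun t => t) ih) L

/-- all insertions as a new block; `a`, `a'` are the numbers of neighbours. -/
def newL (k a a' : ℕ) (L : List Part) (tl : List Part) : List Part :=
  List.rec (motive := fun _ => List Part) tl
    (fun p _ ih => ([k] :: p.1, Nat.add p.2.1 a, Nat.add p.2.2 a') :: ih) L

def bucketL (K : ℕ) (f : List Part → List Part) (gs : List (ℕ × List Part)) : List (ℕ × List Part) :=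
  List.rec (motive := fun _ => List (ℕ × List Part)) [(K, f [])]
    (fun g r ih => cond (Nat.beq K g.1) ((g.1, f g.2) :: r) (g :: ih)) gs

/-- insertions in the blocks of size `s + 1`, `s < n` -/
def sizesL (k : ℕ) (N N' : List ℕ) (K : ℕ) (L : List Part) (n : ℕ) (acc : List (ℕ × List Part)) :
    List (ℕ × List Part) :=
  Nat.rec (motive := fun _ => List (ℕ × List Part)) acc
    (fun s ih => cond (Nat.beq (Nat.mod (Nat.div K (Nat.pow 32 (Nat.succ s))) 32) 0) ih
      (bucketL (Nat.sub (Nat.add K (Nat.pow 32 (Nat.succ (Nat.succ s)))) (Nat.pow 32 (Nat.succ s)))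
        (insL (Nat.succ s) k N N' L) ih)) n

def stepG (k : ℕ) (N N' : List ℕ) (init : List (ℕ × List Part)) (G : List (ℕ × List Part)) :
    List (ℕ × List Part) :=
  List.rec (motive := fun _ => List (ℕ × List Part)) init
    (fun g _ ih => sizesL k N N' g.1 g.2 k
      (bucketL (Nat.add g.1 32) (newL k (len N) (len N') g.2) ih)) G

def levels (NH NH' : ℕ → List ℕ) (k : ℕ) : List (ℕ × List Part) :=
  Nat.rec (motive := fun _ => List (ℕ × List Part)) [(0, [([], 0, 0)])]
    (fun k ih => stepG k (NH k) (NH' k) [] ih) k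

def grpF (T : List (List ℕ)) (NH NH' : List (List ℕ)) (k : ℕ) : List (ℕ × List Part) :=
  Nat.rec (motive := fun _ => List (ℕ × List Part)) []
    (fun k _ => stepG k (nthL NH k) (nthL NH' k) (lmap (fun τ => (keyS τ, [])) T)
      (levels (nthL NH) (nthL NH') k)) k

/-! ### packed evaluation -/

/-- packed digits in base `32` -/
def packE (e : List ℕ) : ℕ :=
  List.rec (motive := fun _ => ℕ) 0 (fun a _ ih => Nat.add a (Nat.mul 32 ih)) e

def getE (E h : ℕ) : ℕ := Nat.mod (Nat.div E (Nat.pow 32 h)) 32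

/-- the digits of a hub: `1` and the exponents for all clusters -/
def hubD (h : ℕ) (cs : List Clu) : List ℕ :=
  List.rec (motive := fun _ => List ℕ) [] (fun c _ ih => nth c.e h :: nth c.e' h :: ih) cs

def hubW (cs : List Clu) (h : ℕ) : ℕ := packE (1 :: hubD h cs)

/-- the word of a block -/
def wd (cs : List Clu) (b : List ℕ) : ℕ :=
  List.rec (motive := fun _ => ℕ) 0 (fun h _ ih => Nat.add (hubW cs h) ih) b

/-- the exponents are at most `3` -/
def smallE (k : ℕ) (cs : List Clu) : Bool :=
  ball (fun h => ball (fun c => cond (Nat.ble (nth c.e h) 3) (Nat.ble (nth c.e' h) 3) false) cs) (lrange k)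

/-- evaluate `n` first -/
def force (n : ℕ) (f : ℕ → ℕ) : ℕ :=
  Nat.rec (motive := fun _ => ℕ) (f Nat.zero) (fun m _ => f (Nat.succ m)) n

/-- `Z₁ ^ |b| P ^ e(b) - 1` -/
def gW (Z1 P i w : ℕ) : ℕ := Nat.pred (Nat.mul (Nat.pow Z1 (getE w 0)) (Nat.pow P (getE w i)))

/-- `∑ (Z₁ ^ |b| P ^ e(b) - 1)` -/
def bsum (cs : List Clu) (Z1 P i : ℕ) (κ : List (List ℕ)) : ℕ :=
  List.rec (motive := fun _ => ℕ) 0 (fun b _ ih => Nat.add (force (wd cs b) (gW Z1 P i)) ih) κ

/-- a cluster for one side: `1 + Z`, `c0`, index of the digit -/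
abbrev CZ := ℕ × ℕ × ℕ

def vE (cs : List Clu) (P : ℕ) (cz : List CZ) (e : ℕ) (κ : List (List ℕ)) : ℕ :=
  List.rec (motive := fun _ => ℕ) (Nat.pow P e)
    (fun c _ ih => Nat.mul (cond (Nat.beq c.2.1 0) (bsum cs c.1 P c.2.2 κ)
      (Nat.mul (Nat.pow P c.2.1) (bsum cs c.1 P c.2.2 κ))) ih) cz

def sumH (cs : List Clu) (P : ℕ) (cz : List CZ) (L : List Part) : ℕ :=
  List.rec (motive := fun _ => ℕ) 0 (fun p _ ih => Nat.add (vE cs P cz p.2.1 p.1) ih) L

def sumH' (cs : List Clu) (P : ℕ) (cz : List CZ) (L : List Part) : ℕ :=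
  List.rec (motive := fun _ => ℕ) 0 (fun p _ ih => Nat.add (vE cs P cz p.2.2 p.1) ih) L

/-- the sums over the groups, with the side which counts positively first -/
def sumsF (cs : List Clu) (P : ℕ) (cz cz' : List CZ) (T : List (List ℕ)) :
    List (ℕ × List Part) → List (ℕ × ℕ) :=
  List.rec (motive := fun _ => List (ℕ × List Part) → List (ℕ × ℕ)) (fun _ => [])
    (fun τ _ ih l => List.rec (motive := fun _ => List (ℕ × ℕ)) []
      (fun g l' _ => (fun a b => cond (odd' (len τ)) (b, a) (a, b))
        (Nat.mul (fct (Nat.pred (len τ))) (sumH cs P cz g.2))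
        (Nat.mul (fct (Nat.pred (len τ))) (sumH' cs P cz' g.2)) :: ih l') l) T

/-- dot product with the first components -/
def dotA (row : List ℕ) : List (ℕ × ℕ) → ℕ :=
  List.rec (motive := fun _ => List (ℕ × ℕ) → ℕ) (fun _ => 0)
    (fun n _ ih l => List.rec (motive := fun _ => ℕ) 0
      (fun p l' _ => cond (Nat.beq n 0) (ih l') (Nat.add (Nat.mul n p.1) (ih l'))) l) row

def dotB (row : List ℕ) : List (ℕ × ℕ) → ℕ :=
  List.rec (motive := fun _ => List (ℕ × ℕ) → ℕ) (fun _ => 0)
    (fun n _ ih l => List.rec (motive := fun _ => ℕ) 0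
      (fun p l' _ => cond (Nat.beq n 0) (ih l') (Nat.add (Nat.mul n p.2) (ih l'))) l) row

/-- the clusters of both sides; `w` the weight of the last cluster, `i` the index of the first digit -/
def mkCZ (k w : ℕ) (cs : List Clu) : ℕ → List CZ :=
  List.rec (motive := fun _ => ℕ → List CZ) (fun _ => [])
    (fun c rest ih i => (Nat.succ (Nat.pow w (Nat.pow (Nat.succ k) (len rest))), c.c, i) ::
      ih (Nat.succ (Nat.succ i))) cs

def mkCZ' (k w : ℕ) (cs : List Clu) : ℕ → List CZ :=
  List.rec (motive := fun _ => ℕ → List CZ) (fun _ => [])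
    (fun c rest ih i => (Nat.succ (Nat.pow w (Nat.pow (Nat.succ k) (len rest))), c.c', i) ::
      ih (Nat.succ (Nat.succ i))) cs

/-- `2 ^ (w - 1)` in each of the `n` digits in base `2 ^ w` -/
def mask (w n : ℕ) : ℕ :=
  Nat.mul (Nat.pow 2 (Nat.pred w)) (Nat.div (Nat.pred (Nat.pow 2 (Nat.mul w n))) (Nat.pred (Nat.pow 2 w)))

/-- comparison of all digits -/
def digOK (w n A B : ℕ) : Bool :=
  cond (Nat.ble B A) (cond (Nat.beq (Nat.land (Nat.sub A B) (mask w n)) 0)
    (Nat.ble (Nat.succ A) (Nat.pow 2 (Nat.mul w n))) false) false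

/-- the sums for the clusters `cs`, at `y = Q` and the weight `W` -/
def sumsP (T : List (List ℕ)) (k : ℕ) (G : List (ℕ × List Part)) (cs : List Clu) (Q W : ℕ) :
    List (ℕ × ℕ) :=
  sumsF cs (Nat.succ Q) (mkCZ k W cs 1) (mkCZ' k W cs 2) T G

/-- the same, with weight `1` if there is no cluster -/
def sumsW (T : List (List ℕ)) (k : ℕ) (G : List (ℕ × List Part)) (cs : List Clu) (Q W : ℕ) :
    List (ℕ × ℕ) :=
  List.rec (motive := fun _ => List (ℕ × ℕ)) (sumsP T k G cs Q 1) (fun _ _ _ => sumsP T k G cs Q W) cs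

/-- bound for the coefficients -/
def bd1 (T : Tab) (k : ℕ) (G : List (ℕ × List Part)) (w : ℕ) (cs : List Clu) : Bool :=
  (fun s => ball (fun row => Nat.ble (Nat.succ (Nat.add (dotA row s) (dotB row s))) (Nat.pow 2 (Nat.pred w)))
    T.rows) (sumsP T.types k G cs 1 1)

/-- bound for the degrees -/
def bd2 (T : Tab) (k : ℕ) (G : List (ℕ × List Part)) (w D : ℕ) (cs : List Clu) : Bool :=
  (fun s => ball (fun row => Nat.ble (Nat.succ (Nat.add (dotA row s) (dotB row s))) (Nat.pow 2 (Nat.mul w D)))
    T.rows) (sumsP T.types k G cs (Nat.pow 2 w) 1)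

/-- comparison of the coefficients -/
def bd3 (T : Tab) (k : ℕ) (G : List (ℕ × List Part)) (w D : ℕ) (cs : List Clu) : Bool :=
  (fun s => ball (fun row => digOK w (Nat.mul D (Nat.pow (Nat.succ k) (len cs))) (dotA row s) (dotB row s))
    T.rows) (sumsW T.types k G cs (Nat.pow 2 w) (Nat.pow 2 (Nat.mul w D)))

/-- the full check for one pattern -/
def fastPat (T : Tab) (k : ℕ) (G : List (ℕ × List Part)) (w D : ℕ) (cs : List Clu) : Bool :=
  cond (smallE k cs) (cond (bd1 T k G w cs) (cond (bd2 T k G w D cs) (bd3 T k G w D cs) false) false) false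

/-- strictness for one pattern -/
def fastStrict (T : Tab) (k : ℕ) (G : List (ℕ × List Part)) (w D : ℕ) (cs : List Clu) : Bool :=
  List.rec (motive := fun _ => Bool) false
    (fun row _ _ => (fun s => cond (Nat.beq (Nat.mod (dotA row s) (Nat.pow 2 (Nat.mul w D)))
        (Nat.mod (dotB row s) (Nat.pow 2 (Nat.mul w D)))) false true)
      (sumsW T.types k G cs (Nat.pow 2 w) (Nat.pow 2 (Nat.mul w D)))) T.rows

/-- one group list for all types -/
def fastLen (T : Tab) (k : ℕ) (NH NH' : List (List ℕ)) : Bool :=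
  Nat.beq (len (grpF T.types NH NH' k)) (len T.types)

def fastAll (T : Tab) (k r : ℕ) (NH NH' MH MH' : List (List ℕ)) (w D : ℕ) : Bool :=
  (fun G => cond (Nat.beq (len G) (len T.types))
    (cond (fastStrict T k G w D (lmap (mkClu k MH MH') (discPat r)))
      (ball (fun p => fastPat T k G w D (lmap (mkClu k MH MH') p.1)) (parts noN noN r)) false) false)
    (grpF T.types NH NH' k)

end Pool.Agent.W_MP_d15038_ex
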