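import Pool.Agent.W_MP_d15038_fx.Fast

/-!
# Correctness of the grouping
-/

set_option autoImplicit false

open Polynomial

namespace Pool.Agent.W_MP_d15038_ex

/-! ### digits -/

theorem coeff_eq_digit {B : ℕ} (hB : 0 < B) : ∀ (s : ℕ) (P : ℕ[X]), (∀ i, P.coeff i < B) →
    (P.eval B / B ^ s) % B = P.coeff s := by
  intro s
  induction s with
  | zero =>
    intro P hP
    rw [pow_zero, Nat.div_one, eval_divX_nat P B, Nat.mul_add_mod', Nat.mod_eq_of_lt (hP 0)]
  | succ s ih =>
    intro P hP
    have h1 : P.eval B / B = (divX P).eval B := by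
      rw [eval_divX_nat P B, Nat.add_div_of_dvd_right (Dvd.intro_left _ rfl), Nat.mul_div_cancel _ hB,
        Nat.div_eq_of_lt (hP 0), Nat.add_zero]
    rw [pow_succ', ← Nat.div_div_eq_div_mul, h1, ih (divX P) (fun i => by rw [coeff_divX]; exact hP _),
      coeff_divX]

theorem key_digit {l : List ℕ} (hl : l.length < 32) (t : ℕ) :
    ((l.map (fun s => 32 ^ s)).sum / 32 ^ t) % 32 = l.count t := by
  have h1 : ∀ a : List ℕ, ((a.map (fun s => (X : ℕ[X]) ^ s)).sum).eval 32 =
      (a.map (fun s => 32 ^ s)).sum := by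
    intro a
    induction a with
    | nil => simp
    | cons x a ih => simp only [List.map_cons, List.sum_cons, eval_add, ih, eval_pow, eval_X]
  have h2 : ∀ (a : List ℕ) (i : ℕ), ((a.map (fun s => (X : ℕ[X]) ^ s)).sum).coeff i = a.count i := by
    intro a i
    induction a with
    | nil => simp
    | cons x a ih =>
      rw [List.map_cons, List.sum_cons, coeff_add, ih, coeff_X_pow, List.count_cons]
      by_cases hx : i = x
      · subst hx; simp [add_comm]
      · rw [if_neg hx]
        have : ¬ (x == i) = true := by simpa using fun h => hx h.symm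
        simp [this]
  rw [← h1, coeff_eq_digit (by norm_num) _ _ (fun i => by
    rw [h2 l]; exact (List.count_le_length).trans_lt hl), h2]

/-! ### sums over lists of groups -/

/-- total of `f` over a list of parts -/
def sF (f : Part → ℝ) (L : List Part) : ℝ := (L.map f).sum

def sG (f : Part → ℝ) (G : List (ℕ × List Part)) : ℝ := (G.map fun g => sF f g.2).sum

@[simp] theorem sF_nil (f : Part → ℝ) : sF f [] = 0 := rfl
@[simp] theorem sF_cons (f : Part → ℝ) (p : Part) (L : List Part) : sF f (p :: L) = f p + sF f L := by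
  simp [sF]
@[simp] theorem sG_nil (f : Part → ℝ) : sG f [] = 0 := rfl
@[simp] theorem sG_cons (f : Part → ℝ) (g : ℕ × List Part) (G : List (ℕ × List Part)) :
    sG f (g :: G) = sF f g.2 + sG f G := by
  simp [sG]

/-- sum over the insertions in the blocks with `q` -/
def bS (q : ℕ → Bool) (k : ℕ) (N N' : List ℕ) (e e' : ℕ) (f : Part → ℝ) :
    List (List ℕ) → (List (List ℕ) → List (List ℕ)) → ℝ
  | [], _ => 0
  | b :: rest, ctx => (if q b.length then
      f (ctx ((k :: b) :: rest), e + (b.length + cntOut b N), e' + (b.length + cntOut b N')) else 0) +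
      bS q k N N' e e' f rest (fun t => ctx (b :: t))

theorem insF_cons (s k : ℕ) (N N' : List ℕ) (e e' : ℕ) (b : List ℕ) (κ : List (List ℕ))
    (ctx : List (List ℕ) → List (List ℕ)) (tl : List Part) :
    insF s k N N' e e' (b :: κ) ctx tl = cond (Nat.beq (len b) s)
      ((ctx ((k :: b) :: κ), e + (s + cntOut b N), e' + (s + cntOut b N')) ::
        insF s k N N' e e' κ (fun t => ctx (b :: t)) tl)
      (insF s k N N' e e' κ (fun t => ctx (b :: t)) tl) := rfl

theorem insF_sum (f : Part → ℝ) (s k : ℕ) (N N' : List ℕ) (e e' : ℕ) :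
    ∀ (κ : List (List ℕ)) (ctx : List (List ℕ) → List (List ℕ)) (tl : List Part),
    sF f (insF s k N N' e e' κ ctx tl) = bS (fun x => x == s) k N N' e e' f κ ctx + sF f tl := by
  intro κ
  induction κ with
  | nil =>
    intro ctx tl
    change sF f tl = 0 + sF f tl
    rw [zero_add]
  | cons b κ ih =>
    intro ctx tl
    rw [insF_cons, len_eq, bS]
    rcases hb : Nat.beq b.length s with _ | _
    · have h1 : ¬ (b.length == s) = true := by
        intro h
        rw [beq_iff_eq] at h
        rw [h, Nat.beq_refl] at hb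
        exact absurd hb (by simp)
      rw [cond_false, ih, if_neg h1, zero_add]
    · have h2 := Nat.eq_of_beq_eq_true hb
      have h1 : (b.length == s) = true := by rw [beq_iff_eq]; exact h2
      rw [cond_true, sF_cons, ih, if_pos h1, h2]
      ring

theorem insAll_sum (f : Part → ℝ) (k : ℕ) (N N' : List ℕ) (e e' : ℕ) :
    ∀ (κ : List (List ℕ)) (ctx : List (List ℕ) → List (List ℕ)),
    sF (fun p => f (ctx p.1, p.2)) (ins k N N' e e' κ) = bS (fun _ => true) k N N' e e' f κ ctx := by
  intro κ
  induction κ with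
  | nil => intro ctx; rfl
  | cons b κ ih =>
    intro ctx
    have h0 : ins k N N' e e' (b :: κ) = ((k :: b) :: κ, e + (len b + cntOut b N), e' + (len b + cntOut b N')) ::
        lmap (fun p => (b :: p.1, p.2)) (ins k N N' e e' κ) := rfl
    rw [h0, lmap_eq, sF_cons, bS, if_pos rfl, len_eq, ← ih]
    congr 1
    unfold sF
    rw [List.map_map]
    rfl

theorem bS_sizes (f : Part → ℝ) (n k : ℕ) (N N' : List ℕ) (e e' : ℕ) :
    ∀ (κ : List (List ℕ)) (ctx : List (List ℕ) → List (List ℕ)), (∀ b ∈ κ, b ≠ [] ∧ b.length ≤ n) →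
    bS (fun _ => true) k N N' e e' f κ ctx =
      ∑ s ∈ Finset.range n, bS (fun x => x == s + 1) k N N' e e' f κ ctx := by
  intro κ
  induction κ with
  | nil => intro ctx _; simp [bS]
  | cons b κ ih =>
    intro ctx h
    simp only [bS]
    rw [Finset.sum_add_distrib, ← ih _ (fun b hb => h b (List.mem_cons_of_mem _ hb)), if_pos trivial]
    congr 1
    obtain ⟨h1, h2⟩ := h b List.mem_cons_self
    have h3 : 0 < b.length := List.length_pos_iff.2 h1
    rw [Finset.sum_eq_single (b.length - 1)]
    · rw [if_pos (by rw [beq_iff_eq]; omega)]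
    · intro s _ hs
      rw [if_neg (by rw [beq_iff_eq]; omega)]
    · intro hs
      rw [Finset.mem_range] at hs
      omega

theorem bS_none (f : Part → ℝ) (s k : ℕ) (N N' : List ℕ) (e e' : ℕ) :
    ∀ (κ : List (List ℕ)) (ctx : List (List ℕ) → List (List ℕ)), (∀ b ∈ κ, b.length ≠ s) →
    bS (fun x => x == s) k N N' e e' f κ ctx = 0 := by
  intro κ
  induction κ with
  | nil => intro ctx _; rfl
  | cons b κ ih =>
    intro ctx h
    rw [bS, ih _ (fun b hb => h b (List.mem_cons_of_mem _ hb)), if_neg (by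
      rw [beq_iff_eq]; exact h b List.mem_cons_self), add_zero]

/-- the members of `insF` -/
theorem insF_mem {s k : ℕ} {N N' : List ℕ} {e e' : ℕ} :
    ∀ {κ : List (List ℕ)} {ctx : List (List ℕ) → List (List ℕ)} {tl : List Part} {p : Part},
    p ∈ insF s k N N' e e' κ ctx tl → p ∈ tl ∨
      ∃ κ1 b κ2, κ = κ1 ++ b :: κ2 ∧ b.length = s ∧ p.1 = ctx (κ1 ++ (k :: b) :: κ2) := by
  intro κ
  induction κ with
  | nil => intro ctx tl p hp; exact Or.inl hp
  | cons b κ ih =>
    intro ctx tl p hp
    rw [insF_cons, len_eq] at hp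
    have h1 : p ∈ insF s k N N' e e' κ (fun t => ctx (b :: t)) tl → p ∈ tl ∨
      ∃ κ1 b' κ2, b :: κ = κ1 ++ b' :: κ2 ∧ b'.length = s ∧ p.1 = ctx (κ1 ++ (k :: b') :: κ2) := by
      intro h
      rcases ih h with h | ⟨κ1, b', κ2, h1, h2, h3⟩
      · exact Or.inl h
      · exact Or.inr ⟨b :: κ1, b', κ2, by rw [h1]; rfl, h2, h3⟩
    rcases hb : Nat.beq b.length s with _ | _
    · rw [hb, cond_false] at hp
      exact h1 hp
    · rw [hb, cond_true] at hp
      rcases List.mem_cons.1 hp with rfl | hp
      · exact Or.inr ⟨[], b, κ, rfl, Nat.eq_of_beq_eq_true hb, rfl⟩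
      · exact h1 hp

theorem PInv.insert {k : ℕ} {κ1 κ2 : List (List ℕ)} {b : List ℕ}
    (h0 : PInv k (κ1 ++ b :: κ2)) : PInv (k + 1) (κ1 ++ (k :: b) :: κ2) := by
  have hb : b ∈ κ1 ++ b :: κ2 := by simp
  have key : ∀ b' ∈ κ1 ++ (k :: b) :: κ2, b' = k :: b ∨ b' ∈ κ1 ++ b :: κ2 := by
    intro b' hb'
    simp only [List.mem_append, List.mem_cons] at hb' ⊢
    tauto
  refine ⟨fun b' hb' => ?_, fun b' hb' x hx => ?_, fun b' hb' => ?_, ?_⟩
  · rcases key b' hb' with rfl | h
    · simp
    · exact h0.ne b' h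
  · rcases key b' hb' with rfl | h
    · rcases List.mem_cons.1 hx with rfl | hx
      · exact Nat.lt_succ_self _
      · exact (h0.lt b hb x hx).trans (Nat.lt_succ_self _)
    · exact (h0.lt b' h x hx).trans (Nat.lt_succ_self _)
  · rcases key b' hb' with rfl | h
    · exact List.nodup_cons.2 ⟨fun h => (h0.lt b hb k h).false, h0.nd b hb⟩
    · exact h0.nd b' h
  · have := h0.tot
    simp only [List.map_append, List.map_cons, List.sum_append, List.sum_cons,
      List.length_cons] at this ⊢
    omega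

theorem PInv.new {k : ℕ} {κ : List (List ℕ)} (h0 : PInv k κ) : PInv (k + 1) ([k] :: κ) := by
  refine ⟨fun b' hb' => ?_, fun b' hb' x hx => ?_, fun b' hb' => ?_, ?_⟩
  · rcases List.mem_cons.1 hb' with rfl | h
    · simp
    · exact h0.ne b' h
  · rcases List.mem_cons.1 hb' with rfl | h
    · rw [List.mem_singleton] at hx; omega
    · exact (h0.lt b' h x hx).trans (Nat.lt_succ_self _)
  · rcases List.mem_cons.1 hb' with rfl | h
    · simp
    · exact h0.nd b' h
  · have := h0.tot
    simp only [List.map_cons, List.sum_cons, List.length_cons, List.length_nil]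
    omega

theorem key_append (a b : List (List ℕ)) : key (a ++ b) = key a + key b := by
  rw [key_eq, key_eq, key_eq]
  simp

theorem key_cons (b : List ℕ) (κ : List (List ℕ)) : key (b :: κ) = 32 ^ b.length + key κ := by
  rw [key_eq, key_eq]
  simp

/-- the property of the members of the groups -/
def Mem (k : ℕ) (G : List (ℕ × List Part)) : Prop :=
  ∀ g ∈ G, ∀ p ∈ g.2, key p.1 = g.1 ∧ PInv k p.1

theorem bucketL_cons (K : ℕ) (f : List Part → List Part) (g : ℕ × List Part)
    (r : List (ℕ × List Part)) :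
    bucketL K f (g :: r) = cond (Nat.beq K g.1) ((g.1, f g.2) :: r) (g :: bucketL K f r) := rfl

theorem bucketL_sum (φ : Part → ℝ) (c : ℝ) (K : ℕ) (f : List Part → List Part)
    (hf : ∀ tl, sF φ (f tl) = c + sF φ tl) (gs : List (ℕ × List Part)) :
    sG φ (bucketL K f gs) = c + sG φ gs := by
  induction gs with
  | nil =>
    change sG φ [(K, f [])] = _
    rw [sG_cons, hf]
    simp
  | cons g r ih =>
    rw [bucketL_cons]
    cases Nat.beq K g.1
    · rw [cond_false, sG_cons, sG_cons, ih]; ring
    · rw [cond_true, sG_cons, sG_cons, hf]; ring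

theorem bucketL_mem {k K : ℕ} {f : List Part → List Part}
    (hf : ∀ tl p, p ∈ f tl → p ∈ tl ∨ (key p.1 = K ∧ PInv k p.1)) {gs : List (ℕ × List Part)}
    (h : Mem k gs) : Mem k (bucketL K f gs) := by
  induction gs with
  | nil =>
    intro g hg p hp
    change g ∈ [(K, f [])] at hg
    rw [List.mem_singleton] at hg
    subst hg
    rcases hf [] p hp with h1 | h1
    · simp at h1
    · exact h1
  | cons g0 r ih =>
    have h0 := h g0 List.mem_cons_self
    have hr : Mem k r := fun g hg => h g (List.mem_cons_of_mem _ hg)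
    intro g hg p hp
    rw [bucketL_cons] at hg
    rcases hb : Nat.beq K g0.1 with _ | _
    · rw [hb, cond_false] at hg
      rcases List.mem_cons.1 hg with rfl | hg
      · exact h0 p hp
      · exact ih hr g hg p hp
    · rw [hb, cond_true] at hg
      rcases List.mem_cons.1 hg with rfl | hg
      · rcases hf g0.2 p hp with h1 | h1
        · exact h0 p h1
        · exact ⟨h1.1.trans (Nat.eq_of_beq_eq_true hb), h1.2⟩
      · exact hr g hg p hp

theorem bucketL_keys (K : ℕ) (f : List Part → List Part) (gs : List (ℕ × List Part)) :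
    ∃ ex, (bucketL K f gs).map Prod.fst = gs.map Prod.fst ++ ex := by
  induction gs with
  | nil => exact ⟨[K], rfl⟩
  | cons g r ih =>
    rw [bucketL_cons]
    rcases h : Nat.beq K g.1 with _ | _
    · rw [cond_false]
      obtain ⟨ex, hex⟩ := ih
      exact ⟨ex, by rw [List.map_cons, hex]; rfl⟩
    · exact ⟨[], by simp⟩

theorem insL_sum (φ : Part → ℝ) (s k : ℕ) (N N' : List ℕ) (L tl : List Part) :
    sF φ (insL s k N N' L tl) =
      sF (fun p => bS (fun x => x == s) k N N' p.2.1 p.2.2 φ p.1 (fun t => t)) L + sF φ tl := by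
  induction L with
  | nil => simp [insL]
  | cons p L ih =>
    change sF φ (insF s k N N' p.2.1 p.2.2 p.1 (fun t => t) (insL s k N N' L tl)) = _
    rw [insF_sum, ih, sF_cons]
    ring

theorem insL_mem {s k K : ℕ} {N N' : List ℕ} {L tl : List Part}
    (hL : ∀ p ∈ L, key p.1 = K ∧ PInv k p.1) {p : Part} (hp : p ∈ insL s k N N' L tl) :
    p ∈ tl ∨ (key p.1 = K + 32 ^ (s + 1) - 32 ^ s ∧ PInv (k + 1) p.1) := by
  induction L with
  | nil => exact Or.inl hp
  | cons p0 L ih =>
    change p ∈ insF s k N N' p0.2.1 p0.2.2 p0.1 (fun t => t) (insL s k N N' L tl) at hp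
    rcases insF_mem hp with h | ⟨κ1, b, κ2, h1, h2, h3⟩
    · exact ih (fun p hp => hL p (List.mem_cons_of_mem _ hp)) h
    · obtain ⟨h4, h5⟩ := hL p0 List.mem_cons_self
      right
      rw [h3]
      rw [h1] at h4 h5
      refine ⟨?_, h5.insert⟩
      rw [key_append, key_cons] at h4 ⊢
      rw [List.length_cons, h2]
      rw [h2] at h4
      have h9 : 32 ^ (s + 1) = 32 ^ s * 32 := pow_succ _ _
      have h10 : 0 < 32 ^ s := pow_pos (by norm_num) _
      rw [h9]
      omega

theorem newL_sum (φ : Part → ℝ) (k a a' : ℕ) (L tl : List Part) :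
    sF φ (newL k a a' L tl) = sF (fun p => φ ([k] :: p.1, p.2.1 + a, p.2.2 + a')) L + sF φ tl := by
  induction L with
  | nil => simp [newL]
  | cons p L ih =>
    change sF φ (([k] :: p.1, p.2.1 + a, p.2.2 + a') :: newL k a a' L tl) = _
    rw [sF_cons, ih, sF_cons]
    ring

theorem newL_mem {k a a' K : ℕ} {L tl : List Part}
    (hL : ∀ p ∈ L, key p.1 = K ∧ PInv k p.1) {p : Part} (hp : p ∈ newL k a a' L tl) :
    p ∈ tl ∨ (key p.1 = K + 32 ∧ PInv (k + 1) p.1) := by
  induction L with
  | nil => exact Or.inl hp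
  | cons p0 L ih =>
    change p ∈ ([k] :: p0.1, p0.2.1 + a, p0.2.2 + a') :: newL k a a' L tl at hp
    rcases List.mem_cons.1 hp with rfl | h
    · obtain ⟨h4, h5⟩ := hL p0 List.mem_cons_self
      right
      refine ⟨?_, h5.new⟩
      rw [key_cons, h4]
      simp [add_comm]
    · exact ih (fun p hp => hL p (List.mem_cons_of_mem _ hp)) h

theorem sizesL_succ (k : ℕ) (N N' : List ℕ) (K : ℕ) (L : List Part) (n : ℕ)
    (acc : List (ℕ × List Part)) :
    sizesL k N N' K L (n + 1) acc = cond (Nat.beq ((K / 32 ^ (n + 1)) % 32) 0) (sizesL k N N' K L n acc)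
      (bucketL (K + 32 ^ (n + 1 + 1) - 32 ^ (n + 1)) (insL (n + 1) k N N' L)
        (sizesL k N N' K L n acc)) := rfl

theorem sizesL_sum (φ : Part → ℝ) {k : ℕ} (hk : k ≤ 10) (N N' : List ℕ) (K : ℕ) (L : List Part)
    (hL : ∀ p ∈ L, key p.1 = K ∧ PInv k p.1) (acc : List (ℕ × List Part)) (n : ℕ) :
    sG φ (sizesL k N N' K L n acc) = (∑ s ∈ Finset.range n,
      sF (fun p => bS (fun x => x == s + 1) k N N' p.2.1 p.2.2 φ p.1 (fun t => t)) L) + sG φ acc := by
  induction n with
  | zero => simp [sizesL]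
  | succ n ih =>
    rw [sizesL_succ, Finset.sum_range_succ]
    rcases hb : Nat.beq ((K / 32 ^ (n + 1)) % 32) 0 with _ | _
    · rw [cond_false, bucketL_sum φ _ _ _ (fun tl => insL_sum φ (n + 1) k N N' L tl), ih]
      ring
    · rw [cond_true, ih]
      have h0 : sF (fun p => bS (fun x => x == n + 1) k N N' p.2.1 p.2.2 φ p.1 (fun t => t)) L = 0 := by
        unfold sF
        refine List.sum_eq_zero fun x hx => ?_
        obtain ⟨p, hp, rfl⟩ := List.mem_map.1 hx
        obtain ⟨h1, h2⟩ := hL p hp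
        refine bS_none _ _ _ _ _ _ _ _ _ fun b hb' hlen => ?_
        have h3 := Nat.eq_of_beq_eq_true hb
        rw [← h1, key_eq, key_digit (by rw [List.length_map]; have := h2.length_le; omega)] at h3
        have h4 : n + 1 ∈ p.1.map List.length := List.mem_map.2 ⟨b, hb', hlen⟩
        rw [List.count_eq_zero] at h3
        exact h3 h4
      rw [h0]
      ring

theorem sizesL_mem {k : ℕ} {N N' : List ℕ} {K : ℕ} {L : List Part}
    (hL : ∀ p ∈ L, key p.1 = K ∧ PInv k p.1) {acc : List (ℕ × List Part)} (hacc : Mem (k + 1) acc)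
    (n : ℕ) : Mem (k + 1) (sizesL k N N' K L n acc) := by
  induction n with
  | zero => exact hacc
  | succ n ih =>
    rw [sizesL_succ]
    cases Nat.beq ((K / 32 ^ (n + 1)) % 32) 0
    · rw [cond_false]
      exact bucketL_mem (fun tl p hp => insL_mem hL hp) ih
    · exact ih

theorem sizesL_keys (k : ℕ) (N N' : List ℕ) (K : ℕ) (L : List Part) (acc : List (ℕ × List Part))
    (n : ℕ) : ∃ ex, (sizesL k N N' K L n acc).map Prod.fst = acc.map Prod.fst ++ ex := by
  induction n with
  | zero => exact ⟨[], by simp [sizesL]⟩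
  | succ n ih =>
    rw [sizesL_succ]
    cases Nat.beq ((K / 32 ^ (n + 1)) % 32) 0
    · rw [cond_false]
      obtain ⟨ex, hex⟩ := ih
      obtain ⟨ex', hex'⟩ := bucketL_keys (K + 32 ^ (n + 1 + 1) - 32 ^ (n + 1)) (insL (n + 1) k N N' L)
        (sizesL k N N' K L n acc)
      exact ⟨ex ++ ex', by rw [hex', hex, List.append_assoc]⟩
    · exact ih

theorem stepG_cons (k : ℕ) (N N' : List ℕ) (init : List (ℕ × List Part)) (g : ℕ × List Part)
    (G : List (ℕ × List Part)) :
    stepG k N N' init (g :: G) = sizesL k N N' g.1 g.2 k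
      (bucketL (g.1 + 32) (newL k (len N) (len N') g.2) (stepG k N N' init G)) := rfl

theorem stepG_sum (φ : Part → ℝ) {k : ℕ} (hk : k ≤ 10) (N N' : List ℕ)
    (init : List (ℕ × List Part)) {G : List (ℕ × List Part)} (hG : Mem k G) :
    sG φ (stepG k N N' init G) = sG (fun p => sF φ (ins k N N' p.2.1 p.2.2 p.1) +
      φ ([k] :: p.1, p.2.1 + N.length, p.2.2 + N'.length)) G + sG φ init := by
  induction G with
  | nil => simp [stepG]
  | cons g G ih =>
    have hg := hG g List.mem_cons_self
    rw [stepG_cons, sizesL_sum φ hk N N' g.1 g.2 hg, bucketL_sum φ _ _ _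
      (fun tl => newL_sum φ k (len N) (len N') g.2 tl), ih (fun g hg => hG g (List.mem_cons_of_mem _ hg)),
      sG_cons, len_eq, len_eq]
    have h1 : ∀ L : List Part, (∀ p ∈ L, key p.1 = g.1 ∧ PInv k p.1) →
        sF (fun p => sF φ (ins k N N' p.2.1 p.2.2 p.1) +
          φ ([k] :: p.1, p.2.1 + N.length, p.2.2 + N'.length)) L =
        (∑ s ∈ Finset.range k, sF (fun p => bS (fun x => x == s + 1) k N N' p.2.1 p.2.2 φ p.1
          (fun t => t)) L) + sF (fun p => φ ([k] :: p.1, p.2.1 + N.length, p.2.2 + N'.length)) L := by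
      intro L
      induction L with
      | nil => intro _; simp
      | cons p L ih =>
        intro hL
        simp only [sF_cons]
        rw [ih (fun p hp => hL p (List.mem_cons_of_mem _ hp)), Finset.sum_add_distrib]
        have h2 := (hL p List.mem_cons_self).2
        have h3 := insAll_sum φ k N N' p.2.1 p.2.2 p.1 (fun t => t)
        have h4 := bS_sizes φ k k N N' p.2.1 p.2.2 p.1 (fun t => t)
          (fun b hb => ⟨h2.ne b hb, h2.blk_le b hb⟩)
        have h5 : sF φ (ins k N N' p.2.1 p.2.2 p.1) =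
            ∑ s ∈ Finset.range k, bS (fun x => x == s + 1) k N N' p.2.1 p.2.2 φ p.1 (fun t => t) := by
          rw [← h4, ← h3]
        rw [h5]
        ring
    rw [h1 g.2 hg]
    ring

theorem stepG_mem {k : ℕ} {N N' : List ℕ} {init : List (ℕ × List Part)} (hi : Mem (k + 1) init)
    {G : List (ℕ × List Part)} (hG : Mem k G) : Mem (k + 1) (stepG k N N' init G) := by
  induction G with
  | nil => exact hi
  | cons g G ih =>
    have hg := hG g List.mem_cons_self
    rw [stepG_cons]
    refine sizesL_mem hg (bucketL_mem (fun tl p hp => newL_mem hg hp) ?_) k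
    exact ih fun g hg => hG g (List.mem_cons_of_mem _ hg)

theorem stepG_keys (k : ℕ) (N N' : List ℕ) (init : List (ℕ × List Part)) (G : List (ℕ × List Part)) :
    ∃ ex, (stepG k N N' init G).map Prod.fst = init.map Prod.fst ++ ex := by
  induction G with
  | nil => exact ⟨[], by simp [stepG]⟩
  | cons g G ih =>
    rw [stepG_cons]
    obtain ⟨ex, hex⟩ := ih
    obtain ⟨ex', hex'⟩ := bucketL_keys (g.1 + 32) (newL k (len N) (len N') g.2) (stepG k N N' init G)
    obtain ⟨ex2, hex2⟩ := sizesL_keys k N N' g.1 g.2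
      (bucketL (g.1 + 32) (newL k (len N) (len N') g.2) (stepG k N N' init G)) k
    exact ⟨ex ++ ex' ++ ex2, by rw [hex2, hex', hex]; simp only [List.append_assoc]⟩

theorem parts_succ_sum (φ : Part → ℝ) (NH NH' : ℕ → List ℕ) (k : ℕ) :
    sF φ (parts NH NH' (k + 1)) = sF (fun p => sF φ (ins k (NH k) (NH' k) p.2.1 p.2.2 p.1) +
      φ ([k] :: p.1, p.2.1 + (NH k).length, p.2.2 + (NH' k).length)) (parts NH NH' k) := by
  rw [parts_succ]
  generalize parts NH NH' k = L
  induction L with
  | nil => rfl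
  | cons p L ih =>
    rw [List.flatMap_cons, sF_cons, ← ih]
    simp only [sF, List.map_append, List.sum_append, List.map_cons, List.map_nil, List.sum_cons,
      List.sum_nil, add_zero]

theorem levels_ok (NH NH' : ℕ → List ℕ) : ∀ k, k ≤ 10 →
    Mem k (levels NH NH' k) ∧ ∀ φ : Part → ℝ, sG φ (levels NH NH' k) = sF φ (parts NH NH' k) := by
  intro k
  induction k with
  | zero =>
    intro _
    refine ⟨?_, fun φ => ?_⟩
    · intro g hg p hp
      change g ∈ [(0, [(([], 0, 0) : Part)])] at hg
      rw [List.mem_singleton] at hg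
      subst hg
      rw [List.mem_singleton] at hp
      subst hp
      exact ⟨rfl, by simp, by simp, by simp, by simp⟩
    · change sG φ [(0, [(([], 0, 0) : Part)])] = sF φ [([], 0, 0)]
      simp
  | succ k ih =>
    intro hk
    obtain ⟨h1, h2⟩ := ih (by omega)
    refine ⟨?_, fun φ => ?_⟩
    · exact stepG_mem (fun g hg => absurd hg (by simp)) h1
    · change sG φ (stepG k (NH k) (NH' k) [] (levels NH NH' k)) = _
      rw [stepG_sum φ (by omega) _ _ _ h1, h2, parts_succ_sum]
      simp

/-- correct groups -/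
structure GOK (T : List (List ℕ)) (NH NH' : List (List ℕ)) (k : ℕ) (G : List (ℕ × List Part)) :
    Prop where
  keys : G.map Prod.fst = T.map keyS
  mem : Mem k G
  sum : ∀ φ : Part → ℝ, sG φ G = sF φ (parts (nthL NH) (nthL NH') k)

theorem grpF_ok {T : List (List ℕ)} {NH NH' : List (List ℕ)} {k : ℕ} (hk0 : 0 < k) (hk : k ≤ 10)
    (h : Nat.beq (len (grpF T NH NH' k)) (len T) = true) : GOK T NH NH' k (grpF T NH NH' k) := by
  obtain ⟨k, rfl⟩ : ∃ k', k = k' + 1 := ⟨k - 1, by omega⟩
  obtain ⟨h1, h2⟩ := levels_ok (nthL NH) (nthL NH') k (by omega)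
  have h0 : grpF T NH NH' (k + 1) = stepG k (nthL NH k) (nthL NH' k) (lmap (fun τ => (keyS τ, [])) T)
      (levels (nthL NH) (nthL NH') k) := rfl
  rw [len_eq, len_eq] at h
  have h := Nat.eq_of_beq_eq_true h
  rw [h0] at h ⊢
  have hi : (lmap (fun τ => (keyS τ, ([] : List Part))) T).map Prod.fst = T.map keyS := by
    rw [lmap_eq, List.map_map]
    rfl
  have hi2 : ∀ g ∈ lmap (fun τ => (keyS τ, ([] : List Part))) T, g.2 = [] := by
    intro g hg
    rw [lmap_eq] at hg
    obtain ⟨τ, _, rfl⟩ := List.mem_map.1 hg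
    rfl
  refine ⟨?_, ?_, fun φ => ?_⟩
  · obtain ⟨ex, hex⟩ := stepG_keys k (nthL NH k) (nthL NH' k) (lmap (fun τ => (keyS τ, [])) T)
      (levels (nthL NH) (nthL NH') k)
    rw [hi] at hex
    have h3 := congrArg List.length hex
    rw [List.length_map, List.length_append, List.length_map, h] at h3
    have h4 : ex = [] := List.length_eq_zero_iff.1 (by omega)
    rw [hex, h4, List.append_nil]
  · refine stepG_mem (fun g hg p hp => ?_) h1
    rw [hi2 g hg] at hp
    simp at hp
  · rw [stepG_sum φ (by omega) _ _ _ h1, h2, parts_succ_sum]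
    have : ∀ G : List (ℕ × List Part), (∀ g ∈ G, g.2 = []) → sG φ G = 0 := by
      intro G
      induction G with
      | nil => intro _; rfl
      | cons g G ih =>
        intro h
        rw [sG_cons, h g List.mem_cons_self, ih fun g hg => h g (List.mem_cons_of_mem _ hg)]
        simp
    rw [this _ hi2, add_zero]

end Pool.Agent.W_MP_d15038_ex
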