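import Pool.Agent.W_MP_d15038_fx.GroupF

/-!
# The packed sums
-/

set_option autoImplicit false

open Finset

namespace Pool.Agent.W_MP_d15038_ex

/-- a list packed with weight `w` -/
def packN (w : ℕ) : List (ℕ × ℕ) → ℕ × ℕ
  | [] => (0, 0)
  | p :: l => (p.1 + w * (packN w l).1, p.2 + w * (packN w l).2)

theorem packN_append (w : ℕ) (l m : List (ℕ × ℕ)) : packN w (l ++ m) =
    ((packN w l).1 + w ^ l.length * (packN w m).1, (packN w l).2 + w ^ l.length * (packN w m).2) := by
  induction l with
  | nil => simp [packN]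
  | cons p l ih =>
    rw [List.cons_append, packN, packN, ih, List.length_cons, pow_succ']
    ext <;> ring

theorem packN_flatMap (w M : ℕ) (f : ℕ → List (ℕ × ℕ)) (hf : ∀ j, (f j).length = M) (n : ℕ) :
    packN w ((List.range n).flatMap f) =
      (∑ j ∈ range n, (w ^ M) ^ j * (packN w (f j)).1, ∑ j ∈ range n, (w ^ M) ^ j * (packN w (f j)).2) := by
  induction n with
  | zero => simp [packN]
  | succ n ih =>
    have hlen : ((List.range n).flatMap f).length = M * n := by
      rw [List.length_flatMap]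
      simp [hf, mul_comm]
    rw [List.range_succ, List.flatMap_append, packN_append, ih, hlen, sum_range_succ, sum_range_succ,
      pow_mul]
    simp

theorem choose_sum (Z s k : ℕ) (hs : s ≤ k) : ∑ j ∈ range (k + 1), Z ^ j * s.choose j = (1 + Z) ^ s := by
  rw [add_comm 1 Z, add_pow]
  symm
  rw [sum_subset (range_subset_range.2 (by omega : s + 1 ≤ k + 1))]
  · refine sum_congr rfl fun j _ => ?_
    simp
  · intro j _ hj
    rw [mem_range, not_lt] at hj
    rw [Nat.choose_eq_zero_of_lt (by omega)]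
    simp

/-- one block of `fac` -/
def facT (y c0 : ℕ) (p : ℕ × ℕ) (j : ℕ) : ℕ :=
  if j = 0 then (y + 1) ^ (c0 + p.2) - (y + 1) ^ c0 else p.1.choose j * (y + 1) ^ (c0 + p.2)

theorem fac_cons (y c0 : ℕ) (p : ℕ × ℕ) (d : List (ℕ × ℕ)) (j : ℕ) (hp : p.1 ≤ 10) (hj : j ≤ 10) :
    fac (opsNat y) c0 (p :: d) j = facT y c0 p j + fac (opsNat y) c0 d j := by
  cases j with
  | zero => rfl
  | succ j =>
    change (cond (Nat.ble (j + 1) p.1) (bin p.1 (j + 1) * (y + 1) ^ (c0 + p.2) +
      fac (opsNat y) c0 d (j + 1)) (fac (opsNat y) c0 d (j + 1)) : ℕ) = _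
    unfold facT
    rw [if_neg (Nat.succ_ne_zero j), bin_eq p.1 hp (j + 1) hj]
    rcases hb : Nat.ble (j + 1) p.1 with _ | _
    · rw [cond_false, Nat.choose_eq_zero_of_lt (not_ble hb), zero_mul, zero_add]
    · rfl

theorem fac_nil (y c0 j : ℕ) : fac (opsNat y) c0 [] j = 0 := by
  cases j <;> rfl

theorem facT_sum (y Z c0 k : ℕ) (p : ℕ × ℕ) (hp : p.1 ≤ k) :
    ∑ j ∈ range (k + 1), Z ^ j * facT y c0 p j =
      (1 + Z) ^ p.1 * (y + 1) ^ (c0 + p.2) - (y + 1) ^ c0 := by
  have h1 := choose_sum Z p.1 k hp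
  rw [sum_range_succ'] at h1 ⊢
  simp only [pow_zero, Nat.choose_zero_right, mul_one, facT, if_true, one_mul, Nat.succ_ne_zero,
    if_false] at h1 ⊢
  have h2 : (y + 1) ^ c0 ≤ (y + 1) ^ (c0 + p.2) := Nat.pow_le_pow_right (Nat.succ_pos y) (Nat.le_add_right _ _)
  rw [← h1, add_mul, one_mul, sum_mul, Nat.add_sub_assoc h2]
  congr 1
  refine sum_congr rfl fun j _ => ?_
  ring

theorem fac_sum (y Z c0 k : ℕ) (hk : k ≤ 10) (d : List (ℕ × ℕ)) (hd : ∀ p ∈ d, p.1 ≤ k) :
    ∑ j ∈ range (k + 1), Z ^ j * fac (opsNat y) c0 d j =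
      (d.map fun p => (1 + Z) ^ p.1 * (y + 1) ^ (c0 + p.2) - (y + 1) ^ c0).sum := by
  induction d with
  | nil => simp [fac_nil]
  | cons p d ih =>
    have hp := hd p List.mem_cons_self
    rw [List.map_cons, List.sum_cons, ← ih (fun p hp => hd p (List.mem_cons_of_mem _ hp)),
      ← facT_sum y Z c0 k p hp, ← sum_add_distrib]
    refine sum_congr rfl fun j hj => ?_
    rw [mem_range] at hj
    rw [fac_cons y c0 p d j (by omega) (by omega)]
    ring

/-- the packed factor of a cluster -/
def FZ (y Z c0 : ℕ) (e : List ℕ) (κ : List (List ℕ)) : ℕ :=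
  (κ.map fun b => (1 + Z) ^ b.length * (y + 1) ^ (c0 + eblk e b) - (y + 1) ^ c0).sum

def phiZ (y w k : ℕ) : List Clu → List (List ℕ) → ℕ
  | [], _ => 1
  | c :: cs, κ => FZ y (w ^ ((k + 1) ^ cs.length)) c.c c.e κ * phiZ y w k cs κ

def phiZ' (y w k : ℕ) : List Clu → List (List ℕ) → ℕ
  | [], _ => 1
  | c :: cs, κ => FZ y (w ^ ((k + 1) ^ cs.length)) c.c' c.e' κ * phiZ' y w k cs κ

def tH (y w k : ℕ) (cs : List Clu) (es : List (Entry ℕ)) : ℕ := (es.map fun p => p.2.1 * phiZ y w k cs p.1).sum
def tH' (y w k : ℕ) (cs : List Clu) (es : List (Entry ℕ)) : ℕ := (es.map fun p => p.2.2 * phiZ' y w k cs p.1).sum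

def tot1 (y w k : ℕ) (cs : List Clu) (g : Grp ℕ) : ℕ := cond g.1 (tH' y w k cs g.2) (tH y w k cs g.2)
def tot2 (y w k : ℕ) (cs : List Clu) (g : Grp ℕ) : ℕ := cond g.1 (tH y w k cs g.2) (tH' y w k cs g.2)

/-- dot product -/
def dN (row l : List ℕ) : ℕ := (List.zipWith (fun a b => a * b) row l).sum

@[simp] theorem dN_nil_left (l : List ℕ) : dN [] l = 0 := by simp [dN]
@[simp] theorem dN_nil_right (l : List ℕ) : dN l [] = 0 := by simp [dN]
@[simp] theorem dN_cons (a b : ℕ) (row l : List ℕ) : dN (a :: row) (b :: l) = a * b + dN row l := by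
  simp [dN]

theorem dot_nat (y : ℕ) (row : List ℕ) (l : List (ℕ × ℕ)) :
    dot (opsNat y) row l = (dN row (l.map Prod.fst), dN row (l.map Prod.snd)) := by
  induction row generalizing l with
  | nil => simp only [dN_nil_left]; rfl
  | cons n row ih =>
    cases l with
    | nil => rw [dot_nil_right]; simp only [List.map_nil, dN_nil_right]; rfl
    | cons p l =>
      rw [dot_cons_cons, ih]
      simp only [List.map_cons, dN_cons]
      rcases hn : Nat.beq n 0 with _ | _
      · rfl
      · rw [Nat.eq_of_beq_eq_true hn]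
        simp

theorem dotA_eq (row : List ℕ) (l : List (ℕ × ℕ)) : dotA row l = dN row (l.map Prod.fst) := by
  induction row generalizing l with
  | nil => simp only [dN_nil_left]; rfl
  | cons n row ih =>
    cases l with
    | nil => simp only [List.map_nil, dN_nil_right]; rfl
    | cons p l =>
      change cond (Nat.beq n 0) (dotA row l) (n * p.1 + dotA row l) = _
      rw [ih, List.map_cons, dN_cons]
      rcases hn : Nat.beq n 0 with _ | _
      · rfl
      · rw [Nat.eq_of_beq_eq_true hn]
        simp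

theorem dotB_eq (row : List ℕ) (l : List (ℕ × ℕ)) : dotB row l = dN row (l.map Prod.snd) := by
  induction row generalizing l with
  | nil => simp only [dN_nil_left]; rfl
  | cons n row ih =>
    cases l with
    | nil => simp only [List.map_nil, dN_nil_right]; rfl
    | cons p l =>
      change cond (Nat.beq n 0) (dotB row l) (n * p.2 + dotB row l) = _
      rw [ih, List.map_cons, dN_cons]
      rcases hn : Nat.beq n 0 with _ | _
      · rfl
      · rw [Nat.eq_of_beq_eq_true hn]
        simp

theorem dN_sum {α : Type} (row : List ℕ) (gs : List α) (s : Finset ℕ) (f : ℕ → α → ℕ) :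
    dN row (gs.map fun g => ∑ j ∈ s, f j g) = ∑ j ∈ s, dN row (gs.map (f j)) := by
  induction row generalizing gs with
  | nil => simp
  | cons n row ih =>
    cases gs with
    | nil => simp
    | cons g gs =>
      simp only [List.map_cons, dN_cons]
      rw [ih, mul_sum, ← sum_add_distrib]

theorem dN_mul {α : Type} (row : List ℕ) (gs : List α) (a : ℕ) (f : α → ℕ) :
    dN row (gs.map fun g => a * f g) = a * dN row (gs.map f) := by
  induction row generalizing gs with
  | nil => simp
  | cons n row ih =>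
    cases gs with
    | nil => simp
    | cons g gs =>
      simp only [List.map_cons, dN_cons]
      rw [ih]
      ring

theorem outs_len {A : Type} (o : Ops A) (k : ℕ) (row : List ℕ) (cs : List Clu) (gs : List (Grp A)) :
    (outs o k [row] cs gs).length = (k + 1) ^ cs.length := by
  induction cs generalizing gs with
  | nil => rw [outs_nil]; simp
  | cons c cs ih =>
    rw [outs_cons, List.length_flatMap]
    simp only [ih, lrange_eq]
    rw [List.map_const', List.length_range, List.sum_replicate, smul_eq_mul, List.length_cons, pow_succ]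
    ring

theorem hasBig_false {κ : List (List ℕ)} {j : ℕ} (h : hasBig κ j = false) : ∀ b ∈ κ, b.length < j := by
  induction κ with
  | nil => simp
  | cons b κ ih =>
    change cond (Nat.ble j (len b)) true (hasBig κ j) = false at h
    rcases hb : Nat.ble j (len b) with _ | _
    · rw [hb, cond_false] at h
      intro b' hb'
      rcases List.mem_cons.1 hb' with rfl | hb'
      · have := not_ble hb
        rwa [len_eq] at this
      · exact ih h b' hb'
    · rw [hb] at h
      exact absurd h (by simp)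

theorem fac_zero_of_small (y c0 j : ℕ) (hj : j ≤ 10) (f : List ℕ → ℕ) (κ : List (List ℕ))
    (h : ∀ b ∈ κ, b.length < j) : fac (opsNat y) c0 (κ.map fun b => (b.length, f b)) j = 0 := by
  induction κ with
  | nil => exact fac_nil y c0 j
  | cons b κ ih =>
    have hb := h b List.mem_cons_self
    rw [List.map_cons, fac_cons y c0 _ _ j (by simp only; omega) hj,
      ih fun b hb => h b (List.mem_cons_of_mem _ hb)]
    unfold facT
    rw [if_neg (by omega), Nat.choose_eq_zero_of_lt hb]
    simp

theorem mulEntries_cons (y : ℕ) (c : Clu) (j : ℕ) (p : Entry ℕ) (es : List (Entry ℕ)) :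
    mulEntries (opsNat y) c j (p :: es) = cond (hasBig p.1 j)
      ((p.1, p.2.1 * fac (opsNat y) c.c (p.1.map fun b => (b.length, eblk c.e b)) j,
        p.2.2 * fac (opsNat y) c.c' (p.1.map fun b => (b.length, eblk c.e' b)) j) ::
        mulEntries (opsNat y) c j es) (mulEntries (opsNat y) c j es) := by
  have h0 : mulEntries (opsNat y) c j (p :: es) = cond (hasBig p.1 j)
      ((p.1, p.2.1 * fac (opsNat y) c.c (lmap (fun b => (len b, eblk c.e b)) p.1) j,
        p.2.2 * fac (opsNat y) c.c' (lmap (fun b => (len b, eblk c.e' b)) p.1) j) ::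
        mulEntries (opsNat y) c j es) (mulEntries (opsNat y) c j es) := rfl
  rw [h0, lmap_eq, lmap_eq]
  simp only [len_eq]

theorem mulEntries_sumN (y : ℕ) (c : Clu) (j : ℕ) (hj : j ≤ 10) (es : List (Entry ℕ))
    (ψ ψ' : List (List ℕ) → ℕ) :
    ((mulEntries (opsNat y) c j es).map fun p => p.2.1 * ψ p.1).sum =
      (es.map fun p => p.2.1 * fac (opsNat y) c.c (p.1.map fun b => (b.length, eblk c.e b)) j * ψ p.1).sum ∧
    ((mulEntries (opsNat y) c j es).map fun p => p.2.2 * ψ' p.1).sum =
      (es.map fun p => p.2.2 * fac (opsNat y) c.c' (p.1.map fun b => (b.length, eblk c.e' b)) j * ψ' p.1).sum := by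
  induction es with
  | nil => exact ⟨rfl, rfl⟩
  | cons p es ih =>
    rw [mulEntries_cons]
    rcases hb : hasBig p.1 j with _ | _
    · have h1 := hasBig_false hb
      rw [cond_false, ih.1, ih.2]
      simp only [List.map_cons, List.sum_cons]
      rw [fac_zero_of_small y c.c j hj (eblk c.e) p.1 h1, fac_zero_of_small y c.c' j hj (eblk c.e') p.1 h1]
      simp
    · rw [cond_true]
      simp only [List.map_cons, List.sum_cons]
      rw [ih.1, ih.2]
      exact ⟨rfl, rfl⟩

theorem list_sum_finset {α : Type} (l : List α) (s : Finset ℕ) (f : ℕ → α → ℕ) :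
    ∑ j ∈ s, (l.map (f j)).sum = (l.map fun a => ∑ j ∈ s, f j a).sum := by
  induction l with
  | nil => simp
  | cons a l ih => simp only [List.map_cons, List.sum_cons, sum_add_distrib, ih]

/-- lengths of the blocks -/
def BlkLe (k : ℕ) (gs : List (Grp ℕ)) : Prop := ∀ g ∈ gs, ∀ p ∈ g.2, ∀ b ∈ p.1, b.length ≤ k

theorem mulEntries_blk {y : ℕ} {c : Clu} {j k : ℕ} {es : List (Entry ℕ)}
    (h : ∀ p ∈ es, ∀ b ∈ p.1, b.length ≤ k) :
    ∀ p ∈ mulEntries (opsNat y) c j es, ∀ b ∈ p.1, b.length ≤ k := by
  induction es with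
  | nil => intro p hp; exact absurd hp (by simp [mulEntries])
  | cons p0 es ih =>
    intro p hp
    have ih' := ih fun p hp => h p (List.mem_cons_of_mem _ hp)
    rw [mulEntries_cons] at hp
    rcases hb : hasBig p0.1 j with _ | _
    · rw [hb, cond_false] at hp
      exact ih' p hp
    · rw [hb, cond_true] at hp
      rcases List.mem_cons.1 hp with rfl | hp
      · exact h p0 List.mem_cons_self
      · exact ih' p hp

theorem tH_cons (y w k : ℕ) (hk : k ≤ 10) (c : Clu) (cs : List Clu) (es : List (Entry ℕ))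
    (h : ∀ p ∈ es, ∀ b ∈ p.1, b.length ≤ k) :
    ∑ j ∈ range (k + 1), (w ^ ((k + 1) ^ cs.length)) ^ j * tH y w k cs (mulEntries (opsNat y) c j es) =
      tH y w k (c :: cs) es := by
  unfold tH
  have h1 : ∀ j ∈ range (k + 1), (w ^ ((k + 1) ^ cs.length)) ^ j *
      ((mulEntries (opsNat y) c j es).map fun p => p.2.1 * phiZ y w k cs p.1).sum =
      (es.map fun p => (w ^ ((k + 1) ^ cs.length)) ^ j * (p.2.1 *
        fac (opsNat y) c.c (p.1.map fun b => (b.length, eblk c.e b)) j * phiZ y w k cs p.1)).sum := by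
    intro j hj
    rw [mem_range] at hj
    rw [(mulEntries_sumN y c j (by omega) es (phiZ y w k cs) (phiZ' y w k cs)).1, List.sum_map_mul_left]
  rw [sum_congr rfl h1, list_sum_finset]
  congr 1
  refine List.map_congr_left fun p hp => ?_
  rw [phiZ, FZ]
  have h2 := fac_sum y (w ^ ((k + 1) ^ cs.length)) c.c k hk (p.1.map fun b => (b.length, eblk c.e b))
    (by
      intro q hq
      obtain ⟨b, hb, rfl⟩ := List.mem_map.1 hq
      exact h p hp b hb)
  rw [List.map_map] at h2
  have h3 : (fun p : ℕ × ℕ => (1 + w ^ ((k + 1) ^ cs.length)) ^ p.1 * (y + 1) ^ (c.c + p.2) - (y + 1) ^ c.c) ∘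
      (fun b : List ℕ => (b.length, eblk c.e b)) =
      fun b => (1 + w ^ ((k + 1) ^ cs.length)) ^ b.length * (y + 1) ^ (c.c + eblk c.e b) - (y + 1) ^ c.c := rfl
  rw [h3] at h2
  rw [← h2, sum_mul, mul_sum]
  refine sum_congr rfl fun j _ => ?_
  ring

theorem tH'_cons (y w k : ℕ) (hk : k ≤ 10) (c : Clu) (cs : List Clu) (es : List (Entry ℕ))
    (h : ∀ p ∈ es, ∀ b ∈ p.1, b.length ≤ k) :
    ∑ j ∈ range (k + 1), (w ^ ((k + 1) ^ cs.length)) ^ j * tH' y w k cs (mulEntries (opsNat y) c j es) =
      tH' y w k (c :: cs) es := by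
  unfold tH'
  have h1 : ∀ j ∈ range (k + 1), (w ^ ((k + 1) ^ cs.length)) ^ j *
      ((mulEntries (opsNat y) c j es).map fun p => p.2.2 * phiZ' y w k cs p.1).sum =
      (es.map fun p => (w ^ ((k + 1) ^ cs.length)) ^ j * (p.2.2 *
        fac (opsNat y) c.c' (p.1.map fun b => (b.length, eblk c.e' b)) j * phiZ' y w k cs p.1)).sum := by
    intro j hj
    rw [mem_range] at hj
    rw [(mulEntries_sumN y c j (by omega) es (phiZ y w k cs) (phiZ' y w k cs)).2, List.sum_map_mul_left]
  rw [sum_congr rfl h1, list_sum_finset]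
  congr 1
  refine List.map_congr_left fun p hp => ?_
  rw [phiZ', FZ]
  have h2 := fac_sum y (w ^ ((k + 1) ^ cs.length)) c.c' k hk (p.1.map fun b => (b.length, eblk c.e' b))
    (by
      intro q hq
      obtain ⟨b, hb, rfl⟩ := List.mem_map.1 hq
      exact h p hp b hb)
  rw [List.map_map] at h2
  have h3 : (fun p : ℕ × ℕ => (1 + w ^ ((k + 1) ^ cs.length)) ^ p.1 * (y + 1) ^ (c.c' + p.2) - (y + 1) ^ c.c') ∘
      (fun b : List ℕ => (b.length, eblk c.e' b)) =
      fun b => (1 + w ^ ((k + 1) ^ cs.length)) ^ b.length * (y + 1) ^ (c.c' + eblk c.e' b) - (y + 1) ^ c.c' := rfl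
  rw [h3] at h2
  rw [← h2, sum_mul, mul_sum]
  refine sum_congr rfl fun j _ => ?_
  ring

theorem pack_outs (y w k : ℕ) (hk : k ≤ 10) (row : List ℕ) : ∀ (cs : List Clu) (gs : List (Grp ℕ)),
    BlkLe k gs → packN w (outs (opsNat y) k [row] cs gs) =
      (dN row (gs.map (tot1 y w k cs)), dN row (gs.map (tot2 y w k cs))) := by
  intro cs
  induction cs with
  | nil =>
    intro gs _
    rw [outs_nil, List.map_cons, List.map_nil, packN, packN, dot_nat, List.map_map, List.map_map]
    have h0 : ∀ (es : List (Entry ℕ)), lsum ((opsNat y).nat 0) (fun p acc => (opsNat y).add p.2.1 acc) es =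
        tH y w k [] es ∧ lsum ((opsNat y).nat 0) (fun p acc => (opsNat y).add p.2.2 acc) es =
        tH' y w k [] es := by
      intro es
      induction es with
      | nil => exact ⟨rfl, rfl⟩
      | cons p es ih =>
        rw [lsum_cons, lsum_cons, ih.1, ih.2]
        unfold tH tH'
        simp only [List.map_cons, List.sum_cons, phiZ, phiZ', mul_one]
        exact ⟨rfl, rfl⟩
    have h1 : ∀ g : Grp ℕ, grpSum (opsNat y) g = (tot1 y w k [] g, tot2 y w k [] g) := by
      intro g
      unfold grpSum tot1 tot2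
      rw [(h0 g.2).1, (h0 g.2).2]
      cases g.1 <;> rfl
    simp only [Function.comp_def, h1, mul_zero, add_zero]
  | cons c cs ih =>
    intro gs hgs
    rw [outs_cons, lrange_eq, packN_flatMap w ((k + 1) ^ cs.length) _ (fun j => outs_len _ _ _ _ _)]
    have hgs' : ∀ j, BlkLe k (gs.map fun g => (g.1, mulEntries (opsNat y) c j g.2)) := by
      intro j g hg
      obtain ⟨g0, hg0, rfl⟩ := List.mem_map.1 hg
      exact mulEntries_blk (hgs g0 hg0)
    simp only [ih _ (hgs' _), List.map_map, Function.comp_def]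
    simp only [← dN_mul, ← dN_sum]
    congr 1
    · congr 1
      refine List.map_congr_left fun g hg => ?_
      unfold tot1
      cases g.1
      · simp only [cond_false]
        exact tH_cons y w k hk c cs g.2 (hgs g hg)
      · simp only [cond_true]
        exact tH'_cons y w k hk c cs g.2 (hgs g hg)
    · congr 1
      refine List.map_congr_left fun g hg => ?_
      unfold tot2
      cases g.1
      · simp only [cond_false]
        exact tH'_cons y w k hk c cs g.2 (hgs g hg)
      · simp only [cond_true]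
        exact tH_cons y w k hk c cs g.2 (hgs g hg)

end Pool.Agent.W_MP_d15038_ex
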