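import Pool.Agent.W_MP_d15038_fx.Pack

/-!
# The words of the blocks, and the kernel friendly sums
-/

set_option autoImplicit false

open Finset

namespace Pool.Agent.W_MP_d15038_ex

theorem packE_cons (a : ℕ) (l : List ℕ) : packE (a :: l) = a + 32 * packE l := rfl

theorem nth_cons_succ (a : ℕ) (l : List ℕ) (n : ℕ) : nth (a :: l) (n + 1) = nth l n := rfl

theorem getE_pack : ∀ (l : List ℕ), (∀ d ∈ l, d < 32) → ∀ i, getE (packE l) i = nth l i := by
  intro l
  induction l with
  | nil =>
    intro _ i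
    change (0 / 32 ^ i) % 32 = 0
    simp
  | cons a l ih =>
    intro h i
    have ha := h a List.mem_cons_self
    cases i with
    | zero =>
      change ((a + 32 * packE l) / 32 ^ 0) % 32 = a
      omega
    | succ i =>
      rw [nth_cons_succ, ← ih (fun d hd => h d (List.mem_cons_of_mem _ hd)) i]
      change ((a + 32 * packE l) / 32 ^ (i + 1)) % 32 = (packE l / 32 ^ i) % 32
      rw [pow_succ', ← Nat.div_div_eq_div_mul]
      congr 2
      omega

def blkD (b : List ℕ) : List Clu → List ℕ
  | [] => []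
  | c :: cs => eblk c.e b :: eblk c.e' b :: blkD b cs

theorem wd_eq (cs : List Clu) (b : List ℕ) : wd cs b = packE (b.length :: blkD b cs) := by
  induction b with
  | nil =>
    have h : ∀ cs : List Clu, packE (blkD [] cs) = 0 := by
      intro cs
      induction cs with
      | nil => rfl
      | cons c cs ih =>
        rw [blkD, packE_cons, packE_cons, ih]
        rfl
    rw [packE_cons, h]
    rfl
  | cons h b ih =>
    have h1 : ∀ cs : List Clu, packE (blkD (h :: b) cs) = packE (hubD h cs) + packE (blkD b cs) := by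
      intro cs
      induction cs with
      | nil => rfl
      | cons c cs ih =>
        have e1 : hubD h (c :: cs) = nth c.e h :: nth c.e' h :: hubD h cs := rfl
        have e2 : ∀ e : List ℕ, eblk e (h :: b) = nth e h + eblk e b := fun e => rfl
        rw [blkD, blkD, e1, packE_cons, packE_cons, packE_cons, packE_cons, packE_cons, packE_cons, ih,
          e2, e2]
        ring
    change hubW cs h + wd cs b = _
    rw [ih, packE_cons, packE_cons, h1]
    change 1 + 32 * packE (hubD h cs) + _ = _
    rw [List.length_cons]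
    ring

theorem nth_blkD (b : List ℕ) (c : Clu) (rest : List Clu) : ∀ (pre : List Clu) (x : ℕ),
    nth (x :: blkD b (pre ++ c :: rest)) (2 * pre.length + 1) = eblk c.e b ∧
    nth (x :: blkD b (pre ++ c :: rest)) (2 * pre.length + 1 + 1) = eblk c.e' b := by
  intro pre
  induction pre with
  | nil => intro x; exact ⟨rfl, rfl⟩
  | cons d pre ih =>
    intro x
    have h1 := ih (eblk d.e' b)
    rw [List.cons_append, List.length_cons, blkD]
    have e1 : 2 * (pre.length + 1) + 1 = (2 * pre.length + 1) + 1 + 1 := by ring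
    rw [e1, nth_cons_succ, nth_cons_succ, nth_cons_succ, nth_cons_succ]
    exact h1

theorem smallE_sound {k : ℕ} {cs : List Clu} (h : smallE k cs = true) :
    ∀ i < k, ∀ c ∈ cs, nth c.e i ≤ 3 ∧ nth c.e' i ≤ 3 := by
  intro i hi c hc
  have h1 := ball_sound (ball_sound h i (by rw [lrange_eq]; exact List.mem_range.2 hi)) c hc
  obtain ⟨h2, h3⟩ := cond_false_right h1
  exact ⟨Nat.le_of_ble_eq_true h2, Nat.le_of_ble_eq_true h3⟩

theorem eblk_le {e : List ℕ} {b : List ℕ} (h : ∀ i ∈ b, nth e i ≤ 3) : eblk e b ≤ 3 * b.length := by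
  induction b with
  | nil => exact Nat.le_refl _
  | cons i b ih =>
    change nth e i + eblk e b ≤ _
    have h1 := h i List.mem_cons_self
    have h2 := ih fun i hi => h i (List.mem_cons_of_mem _ hi)
    rw [List.length_cons]
    omega

theorem blkD_le {b : List ℕ} {M : ℕ} : ∀ {cs : List Clu}, (∀ c ∈ cs, eblk c.e b ≤ M ∧ eblk c.e' b ≤ M) →
    ∀ d ∈ blkD b cs, d ≤ M := by
  intro cs
  induction cs with
  | nil => intro _ d hd; simp [blkD] at hd
  | cons c cs ih =>
    intro h d hd
    rw [blkD] at hd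
    have hc := h c List.mem_cons_self
    rcases List.mem_cons.1 hd with rfl | hd
    · exact hc.1
    rcases List.mem_cons.1 hd with rfl | hd
    · exact hc.2
    · exact ih (fun c hc => h c (List.mem_cons_of_mem _ hc)) d hd

/-- the word of a block has the right digits -/
theorem getE_wd {k : ℕ} (hk : k ≤ 10) {all : List Clu} (hs : smallE k all = true) {b : List ℕ}
    (hlt : ∀ x ∈ b, x < k) (hlen : b.length ≤ k) (i : ℕ) :
    getE (wd all b) i = nth (b.length :: blkD b all) i := by
  rw [wd_eq]
  refine getE_pack _ (fun d hd => ?_) i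
  rcases List.mem_cons.1 hd with rfl | hd
  · omega
  · have h1 := smallE_sound hs
    have h2 := blkD_le (b := b) (M := 3 * b.length) (cs := all) (fun c hc =>
      ⟨eblk_le fun x hx => (h1 x (hlt x hx) c hc).1, eblk_le fun x hx => (h1 x (hlt x hx) c hc).2⟩) d hd
    omega

theorem force_eq (n : ℕ) (f : ℕ → ℕ) : force n f = f n := by
  cases n <;> rfl

theorem bsum_cons (all : List Clu) (Z1 P i : ℕ) (b : List ℕ) (κ : List (List ℕ)) :
    bsum all Z1 P i (b :: κ) =
      (Z1 ^ getE (wd all b) 0 * P ^ getE (wd all b) i - 1) + bsum all Z1 P i κ := by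
  change force (wd all b) (gW Z1 P i) + bsum all Z1 P i κ = _
  rw [force_eq]
  rfl

theorem bsum_FZ {k : ℕ} (hk : k ≤ 10) {all : List Clu} (hs : smallE k all = true) (y Z c0 i : ℕ)
    (e : List ℕ) {κ : List (List ℕ)} (hlt : ∀ b ∈ κ, ∀ x ∈ b, x < k) (hlen : ∀ b ∈ κ, b.length ≤ k)
    (he : ∀ b ∈ κ, nth (b.length :: blkD b all) i = eblk e b) :
    (y + 1) ^ c0 * bsum all (Z + 1) (y + 1) i κ = FZ y Z c0 e κ := by
  induction κ with
  | nil => rfl
  | cons b κ ih =>
    have hb : b ∈ b :: κ := List.mem_cons_self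
    rw [bsum_cons, mul_add, ih (fun b hb => hlt b (List.mem_cons_of_mem _ hb))
      (fun b hb => hlen b (List.mem_cons_of_mem _ hb)) (fun b hb => he b (List.mem_cons_of_mem _ hb)),
      getE_wd hk hs (hlt b hb) (hlen b hb), getE_wd hk hs (hlt b hb) (hlen b hb), he b hb]
    unfold FZ
    rw [List.map_cons, List.sum_cons, Nat.mul_sub, mul_one]
    congr 2
    change (y + 1) ^ c0 * ((Z + 1) ^ b.length * (y + 1) ^ eblk e b) = _
    rw [add_comm 1 Z, pow_add]
    ring

theorem vE_cons (all : List Clu) (P : ℕ) (c : CZ) (cz : List CZ) (e : ℕ) (κ : List (List ℕ)) :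
    vE all P (c :: cz) e κ = (P ^ c.2.1 * bsum all c.1 P c.2.2 κ) * vE all P cz e κ := by
  change (cond (Nat.beq c.2.1 0) (bsum all c.1 P c.2.2 κ) (P ^ c.2.1 * bsum all c.1 P c.2.2 κ)) *
    vE all P cz e κ = _
  rcases hb : Nat.beq c.2.1 0 with _ | _
  · rfl
  · rw [Nat.eq_of_beq_eq_true hb]
    simp

theorem vE_eq {k : ℕ} (hk : k ≤ 10) {all : List Clu} (hs : smallE k all = true) (y w e : ℕ)
    {κ : List (List ℕ)} (hκ : PInv k κ) : ∀ (cs pre : List Clu), all = pre ++ cs →
    vE all (y + 1) (mkCZ k w cs (2 * pre.length + 1)) e κ = (y + 1) ^ e * phiZ y w k cs κ := by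
  intro cs
  induction cs with
  | nil => intro pre _; rw [phiZ, mul_one]; rfl
  | cons c cs ih =>
    intro pre hall
    have e1 : mkCZ k w (c :: cs) (2 * pre.length + 1) = (w ^ ((k + 1) ^ (len cs)) + 1, c.c, 2 * pre.length + 1) ::
      mkCZ k w cs (2 * pre.length + 1 + 1 + 1) := rfl
    have h1 := ih (pre ++ [c]) (by rw [hall]; simp)
    have e2 : 2 * (pre ++ [c]).length + 1 = 2 * pre.length + 1 + 1 + 1 := by
      rw [List.length_append, List.length_singleton]; ring
    rw [e2] at h1
    rw [e1, vE_cons, h1, len_eq]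
    simp only
    rw [bsum_FZ hk hs y (w ^ ((k + 1) ^ cs.length)) c.c (2 * pre.length + 1) c.e hκ.lt hκ.blk_le
      (fun b _ => by rw [hall]; exact (nth_blkD b c cs pre b.length).1), phiZ]
    ring

theorem vE_eq' {k : ℕ} (hk : k ≤ 10) {all : List Clu} (hs : smallE k all = true) (y w e : ℕ)
    {κ : List (List ℕ)} (hκ : PInv k κ) : ∀ (cs pre : List Clu), all = pre ++ cs →
    vE all (y + 1) (mkCZ' k w cs (2 * pre.length + 1 + 1)) e κ = (y + 1) ^ e * phiZ' y w k cs κ := by
  intro cs
  induction cs with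
  | nil => intro pre _; rw [phiZ', mul_one]; rfl
  | cons c cs ih =>
    intro pre hall
    have e1 : mkCZ' k w (c :: cs) (2 * pre.length + 1 + 1) =
      (w ^ ((k + 1) ^ (len cs)) + 1, c.c', 2 * pre.length + 1 + 1) ::
      mkCZ' k w cs (2 * pre.length + 1 + 1 + 1 + 1) := rfl
    have h1 := ih (pre ++ [c]) (by rw [hall]; simp)
    have e2 : 2 * (pre ++ [c]).length + 1 + 1 = 2 * pre.length + 1 + 1 + 1 + 1 := by
      rw [List.length_append, List.length_singleton]; ring
    rw [e2] at h1
    rw [e1, vE_cons, h1, len_eq]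
    simp only
    rw [bsum_FZ hk hs y (w ^ ((k + 1) ^ cs.length)) c.c' (2 * pre.length + 1 + 1) c.e' hκ.lt hκ.blk_le
      (fun b _ => by rw [hall]; exact (nth_blkD b c cs pre b.length).2), phiZ']
    ring

theorem sumH_eq (all : List Clu) (P : ℕ) (cz : List CZ) (L : List Part) :
    sumH all P cz L = (L.map fun p => vE all P cz p.2.1 p.1).sum := by
  induction L with
  | nil => rfl
  | cons p L ih =>
    change vE all P cz p.2.1 p.1 + sumH all P cz L = _
    rw [ih, List.map_cons, List.sum_cons]

theorem sumH'_eq (all : List Clu) (P : ℕ) (cz : List CZ) (L : List Part) :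
    sumH' all P cz L = (L.map fun p => vE all P cz p.2.2 p.1).sum := by
  induction L with
  | nil => rfl
  | cons p L ih =>
    change vE all P cz p.2.2 p.1 + sumH' all P cz L = _
    rw [ih, List.map_cons, List.sum_cons]

theorem entries_eq {k : ℕ} (hk : k ≤ 10) {cs : List Clu} (hs : smallE k cs = true) (y w n : ℕ)
    {L : List Part} (hL : ∀ p ∈ L, PInv k p.1 ∧ p.1.length = n) :
    tH y w k cs (mkEntries (opsNat y) L) =
      fct (Nat.pred n) * sumH cs (Nat.succ y) (mkCZ k w cs 1) L ∧
    tH' y w k cs (mkEntries (opsNat y) L) =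
      fct (Nat.pred n) * sumH' cs (Nat.succ y) (mkCZ' k w cs 2) L := by
  rw [sumH_eq, sumH'_eq]
  unfold tH tH' mkEntries
  rw [lmap_eq, List.map_map, List.map_map, ← List.sum_map_mul_left, ← List.sum_map_mul_left]
  constructor
  · congr 1
    refine List.map_congr_left fun p hp => ?_
    obtain ⟨h1, h2⟩ := hL p hp
    have h3 := vE_eq hk hs y w p.2.1 h1 cs [] rfl
    simp only [List.length_nil, mul_zero, zero_add] at h3
    rw [Function.comp_apply]
    change (fct (Nat.pred (len p.1)) * (y + 1) ^ p.2.1) * phiZ y w k cs p.1 = _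
    rw [len_eq, h2]
    change _ = fct (Nat.pred n) * vE cs (y + 1) (mkCZ k w cs 1) p.2.1 p.1
    rw [h3]
    ring
  · congr 1
    refine List.map_congr_left fun p hp => ?_
    obtain ⟨h1, h2⟩ := hL p hp
    have h3 := vE_eq' hk hs y w p.2.2 h1 cs [] rfl
    simp only [List.length_nil, mul_zero, zero_add] at h3
    rw [Function.comp_apply]
    change (fct (Nat.pred (len p.1)) * (y + 1) ^ p.2.2) * phiZ' y w k cs p.1 = _
    rw [len_eq, h2]
    change _ = fct (Nat.pred n) * vE cs (y + 1) (mkCZ' k w cs 2) p.2.2 p.1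
    rw [h3]
    ring

theorem sumsP_eq {k : ℕ} (hk : k ≤ 10) {cs : List Clu} (hs : smallE k cs = true) (y w : ℕ) :
    ∀ (T : List (List ℕ)) (G : List (ℕ × List Part)), G.map Prod.fst = T.map keyS → Mem k G →
    (∀ τ ∈ T, τ.length < 32) →
    (sumsP T k G cs y w).map Prod.fst = (mkGrp (opsNat y) T G).map (tot1 y w k cs) ∧
    (sumsP T k G cs y w).map Prod.snd = (mkGrp (opsNat y) T G).map (tot2 y w k cs) := by
  intro T
  induction T with
  | nil => intro G _ _ _; exact ⟨rfl, rfl⟩
  | cons τ T ih =>
    intro G hG hmem hT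
    cases G with
    | nil => simp at hG
    | cons g G =>
      rw [List.map_cons, List.map_cons, List.cons.injEq] at hG
      obtain ⟨i1, i2⟩ := ih G hG.2 (fun g hg => hmem g (List.mem_cons_of_mem _ hg))
        (fun τ hτ => hT τ (List.mem_cons_of_mem _ hτ))
      have hL : ∀ p ∈ g.2, PInv k p.1 ∧ p.1.length = τ.length := by
        intro p hp
        obtain ⟨h1, h2⟩ := hmem g List.mem_cons_self p hp
        refine ⟨h2, ?_⟩
        have h3 : (p.1.map List.length).Perm τ := by
          refine key_perm ?_ (hT τ List.mem_cons_self) ?_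
          · rw [List.length_map]
            have := h2.length_le
            omega
          · rw [← key_eq, ← keyS_eq, h1, hG.1]
        have := h3.length_eq
        rwa [List.length_map] at this
      obtain ⟨e1, e2⟩ := entries_eq hk hs y w τ.length hL
      have e0 : sumsP (τ :: T) k (g :: G) cs y w =
        cond (odd' (len τ)) (fct (Nat.pred (len τ)) * sumH' cs (Nat.succ y) (mkCZ' k w cs 2) g.2,
          fct (Nat.pred (len τ)) * sumH cs (Nat.succ y) (mkCZ k w cs 1) g.2)
          (fct (Nat.pred (len τ)) * sumH cs (Nat.succ y) (mkCZ k w cs 1) g.2,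
          fct (Nat.pred (len τ)) * sumH' cs (Nat.succ y) (mkCZ' k w cs 2) g.2) ::
        sumsP T k G cs y w := rfl
      have e3 : mkGrp (opsNat y) (τ :: T) (g :: G) = (odd' (len τ), mkEntries (opsNat y) g.2) ::
        mkGrp (opsNat y) T G := rfl
      rw [e0, e3, len_eq, ← e1, ← e2]
      simp only [List.map_cons]
      rw [i1, i2]
      unfold tot1 tot2
      cases odd' τ.length <;> exact ⟨rfl, rfl⟩

theorem mkGrp_blk {k y : ℕ} : ∀ (T : List (List ℕ)) (G : List (ℕ × List Part)), Mem k G →
    BlkLe k (mkGrp (opsNat y) T G) := by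
  intro T
  induction T with
  | nil => intro G _ g hg; exact absurd hg (by simp [mkGrp])
  | cons τ T ih =>
    intro G hG g hg
    cases G with
    | nil => exact absurd hg (by simp [mkGrp])
    | cons g0 G =>
      change g ∈ (odd' (len τ), mkEntries (opsNat y) g0.2) :: mkGrp (opsNat y) T G at hg
      rcases List.mem_cons.1 hg with rfl | hg
      · intro p hp b hb
        unfold mkEntries at hp
        rw [lmap_eq] at hp
        obtain ⟨p', hp', rfl⟩ := List.mem_map.1 hp
        exact (hG g0 List.mem_cons_self p' hp').2.blk_le b hb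
      · exact ih G (fun g hg => hG g (List.mem_cons_of_mem _ hg)) g hg

/-- the kernel friendly sums compute the packed outputs -/
theorem dot_sumsP {T : List (List ℕ)} {NH NH' : List (List ℕ)} {k : ℕ} (hk : k ≤ 10)
    {G : List (ℕ × List Part)} (hG : GOK T NH NH' k G) (hT : ∀ τ ∈ T, τ.length < 32)
    {cs : List Clu} (hs : smallE k cs = true) (y w : ℕ) (row : List ℕ) :
    packN w (outs (opsNat y) k [row] cs (mkGrp (opsNat y) T G)) =
      (dotA row (sumsP T k G cs y w), dotB row (sumsP T k G cs y w)) := by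
  rw [pack_outs y w k hk row cs _ (mkGrp_blk T G hG.mem), dotA_eq, dotB_eq]
  obtain ⟨h1, h2⟩ := sumsP_eq hk hs y w T G hG.keys hG.mem hT
  rw [h1, h2]

end Pool.Agent.W_MP_d15038_ex
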